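import Mathlib

/-!
# Local solutions of an expanding linear system over `F_2`

The variables are the pairs `(i, l)` (chain `i`, level `l`), the equation `e` is
`∑ i, s (i, ℓ e i) = ε e`.
-/

set_option linter.unusedSectionVars false

open Finset

namespace Pool.Agent.CircWL

variable {d M : ℕ} {E : Type} [DecidableEq E]

lemma z2_one (x : ZMod 2) (h : x ≠ 0) : x = 1 := by
  revert x
  decide

lemma z2_self (x : ZMod 2) : x + x = 0 := CharTwo.add_self_eq_zero x

lemma sum_symmDiff (f : E → ZMod 2) (S T : Finset E) :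
    ∑ e ∈ symmDiff S T, f e = ∑ e ∈ S, f e + ∑ e ∈ T, f e := by
  have h1 : ∑ e ∈ symmDiff S T, f e = ∑ e ∈ S \ T, f e + ∑ e ∈ T \ S, f e := by
    rw [symmDiff_def]
    exact Finset.sum_union (Finset.disjoint_left.2 fun x hx hx' =>
      (Finset.mem_sdiff.1 hx).2 (Finset.mem_sdiff.1 hx').1)
  have h2 := Finset.sum_inter_add_sum_sdiff S T f
  have h3 := Finset.sum_inter_add_sum_sdiff T S f
  rw [Finset.inter_comm T S] at h3
  rw [h1, ← h2, ← h3]
  have h4 := z2_self (∑ e ∈ S ∩ T, f e)
  linear_combination -h4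

/-- the left side of the sum of the equations in `S` -/
def av (ℓ : E → Fin d → Fin M) (S : Finset E) (v : Fin d × Fin M) : ZMod 2 :=
  ∑ e ∈ S, if ℓ e v.1 = v.2 then 1 else 0

lemma av_symmDiff (ℓ : E → Fin d → Fin M) (S T : Finset E) (v : Fin d × Fin M) :
    av ℓ (symmDiff S T) v = av ℓ S v + av ℓ T v := sum_symmDiff _ S T

/-- variables occurring in the sum of the equations in `S` -/
def supp (ℓ : E → Fin d → Fin M) (S : Finset E) : Finset (Fin d × Fin M) :=
  Finset.univ.filter fun v => av ℓ S v ≠ 0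

/-- the defect of `s` at the sum of the equations in `S` -/
def defect (ℓ : E → Fin d → Fin M) (ε : E → ZMod 2) (s : Fin d × Fin M → ZMod 2)
    (S : Finset E) : ZMod 2 :=
  ∑ e ∈ S, (∑ i, s (i, ℓ e i) + ε e)

lemma defect_eq (ℓ : E → Fin d → Fin M) (ε : E → ZMod 2) (s : Fin d × Fin M → ZMod 2)
    (S : Finset E) : defect ℓ ε s S = ∑ v, av ℓ S v * s v + ∑ e ∈ S, ε e := by
  unfold defect av
  rw [Finset.sum_add_distrib]
  congr 1
  have h1 : ∀ v : Fin d × Fin M, (∑ e ∈ S, if ℓ e v.1 = v.2 then (1 : ZMod 2) else 0) * s v =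
      ∑ e ∈ S, if ℓ e v.1 = v.2 then s v else 0 := by
    intro v
    rw [Finset.sum_mul]
    exact Finset.sum_congr rfl fun e _ => by split_ifs <;> simp
  simp only [h1]
  refine Eq.trans ?_ Finset.sum_comm
  apply Finset.sum_congr rfl
  intro e _
  rw [Fintype.sum_prod_type]
  apply Finset.sum_congr rfl
  intro i _
  simp

lemma defect_symmDiff (ℓ : E → Fin d → Fin M) (ε : E → ZMod 2) (s : Fin d × Fin M → ZMod 2)
    (S T : Finset E) : defect ℓ ε s (symmDiff S T) = defect ℓ ε s S + defect ℓ ε s T :=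
  sum_symmDiff _ S T

lemma defect_update (ℓ : E → Fin d → Fin M) (ε : E → ZMod 2) (s : Fin d × Fin M → ZMod 2)
    (v : Fin d × Fin M) (z : ZMod 2) (S : Finset E) :
    defect ℓ ε (Function.update s v (s v + z)) S = defect ℓ ε s S + av ℓ S v * z := by
  rw [defect_eq, defect_eq]
  have h1 : ∑ w, av ℓ S w * (Function.update s v (s v + z)) w =
      ∑ w, av ℓ S w * s w + av ℓ S v * z := by
    rw [← Finset.add_sum_erase _ _ (Finset.mem_univ v),
      ← Finset.add_sum_erase _ (fun w => av ℓ S w * s w) (Finset.mem_univ v)]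
    rw [Function.update_self]
    have h2 : ∑ w ∈ Finset.univ.erase v, av ℓ S w * (Function.update s v (s v + z)) w =
        ∑ w ∈ Finset.univ.erase v, av ℓ S w * s w := by
      apply Finset.sum_congr rfl
      intro w hw
      rw [Function.update_of_ne (Finset.ne_of_mem_erase hw)]
    rw [h2]
    ring
  rw [h1]
  ring

/-- `s` satisfies all consequences of at most `K` equations that only involve the variables in `V` -/
def Good (ℓ : E → Fin d → Fin M) (ε : E → ZMod 2) (K : ℕ) (V : Finset (Fin d × Fin M))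
    (s : Fin d × Fin M → ZMod 2) : Prop :=
  ∀ S : Finset E, S.card ≤ K → (∀ v, v ∉ V → av ℓ S v = 0) → defect ℓ ε s S = 0

lemma Good.mono {ℓ : E → Fin d → Fin M} {ε : E → ZMod 2} {K : ℕ} {V V' : Finset (Fin d × Fin M)}
    {s : Fin d × Fin M → ZMod 2} (h : Good ℓ ε K V' s) (hV : V ⊆ V') : Good ℓ ε K V s :=
  fun S hS hv => h S hS fun v hv' => hv v fun hv'' => hv' (hV hv'')

/-- expansion: the sum of `|S| ≤ K` equations involves at least `2|S|` variables -/
def Expand (ℓ : E → Fin d → Fin M) (K : ℕ) : Prop :=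
  ∀ S : Finset E, S.card ≤ K → 2 * S.card ≤ (supp ℓ S).card

lemma card_le_of_supp {ℓ : E → Fin d → Fin M} {K : ℕ} (hE : Expand ℓ K)
    {V : Finset (Fin d × Fin M)} {S : Finset E} (hS : S.card ≤ K)
    (hv : ∀ v, v ∉ V → av ℓ S v = 0) : 2 * S.card ≤ V.card := by
  refine (hE S hS).trans (Finset.card_le_card fun v hv' => ?_)
  rw [supp, Finset.mem_filter] at hv'
  by_contra hcon
  exact hv'.2 (hv v hcon)

lemma good_empty {ℓ : E → Fin d → Fin M} {ε : E → ZMod 2} {K : ℕ} (hE : Expand ℓ K)
    (s : Fin d × Fin M → ZMod 2) : Good ℓ ε K ∅ s := by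
  intro S hS hv
  have h1 := card_le_of_supp hE hS hv
  rw [Finset.card_empty] at h1
  have h2 : S = ∅ := Finset.card_eq_zero.1 (by omega)
  rw [h2]
  simp [defect]

lemma good_step {ℓ : E → Fin d → Fin M} {ε : E → ZMod 2} {K : ℕ} (hE : Expand ℓ K)
    {V : Finset (Fin d × Fin M)} {v : Fin d × Fin M}
    (hcard : (insert v V).card ≤ K) {s : Fin d × Fin M → ZMod 2} (hs : Good ℓ ε K V s) :
    ∃ s' : Fin d × Fin M → ZMod 2, (∀ w, w ≠ v → s' w = s w) ∧ Good ℓ ε K (insert v V) s' := by
  by_cases h : ∃ S₀ : Finset E, S₀.card ≤ K ∧ (∀ w, w ∉ insert v V → av ℓ S₀ w = 0) ∧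
      av ℓ S₀ v ≠ 0
  · obtain ⟨S₀, h0K, h0V, h0v⟩ := h
    have h0v' := z2_one _ h0v
    refine ⟨Function.update s v (s v + defect ℓ ε s S₀), fun w hw => Function.update_of_ne hw _ _,
      ?_⟩
    intro S hSK hSV
    rw [defect_update]
    by_cases hSv : av ℓ S v = 0
    · rw [hSv, zero_mul, add_zero]
      apply hs S hSK
      intro w hw
      by_cases hwv : w = v
      · rw [hwv]; exact hSv
      · exact hSV w (by simp [hwv, hw])
    · have hSv' := z2_one _ hSv
      have h1 : defect ℓ ε s (symmDiff S S₀) = 0 := by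
        apply hs
        · have c1 := card_le_of_supp hE hSK hSV
          have c2 := card_le_of_supp hE h0K h0V
          have c3 : (symmDiff S S₀).card ≤ S.card + S₀.card := by
            rw [symmDiff_def]
            refine (Finset.card_union_le _ _).trans ?_
            exact Nat.add_le_add (Finset.card_le_card Finset.sdiff_subset)
              (Finset.card_le_card Finset.sdiff_subset)
          omega
        · intro w hw
          rw [av_symmDiff]
          by_cases hwv : w = v
          · rw [hwv, hSv', h0v']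
            decide
          · rw [hSV w (by simp [hwv, hw]), h0V w (by simp [hwv, hw]), add_zero]
      rw [defect_symmDiff] at h1
      rw [hSv', one_mul]
      exact h1
  · refine ⟨s, fun _ _ => rfl, fun S hSK hSV => ?_⟩
    apply hs S hSK
    intro w hw
    by_cases hwv : w = v
    · rw [hwv]
      by_contra hne
      exact h ⟨S, hSK, hSV, hne⟩
    · exact hSV w (by simp [hwv, hw])

theorem good_ext {ℓ : E → Fin d → Fin M} {ε : E → ZMod 2} {K : ℕ} (hE : Expand ℓ K)
    {V V' : Finset (Fin d × Fin M)} (hVV' : V ⊆ V') (hcard : V'.card ≤ K)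
    {s : Fin d × Fin M → ZMod 2} (hs : Good ℓ ε K V s) :
    ∃ s' : Fin d × Fin M → ZMod 2, (∀ w ∈ V, s' w = s w) ∧ Good ℓ ε K V' s' := by
  have key : ∀ D : Finset (Fin d × Fin M), D ⊆ V' →
      ∃ s' : Fin d × Fin M → ZMod 2, (∀ w ∈ V, s' w = s w) ∧ Good ℓ ε K (V ∪ D) s' := by
    intro D
    induction D using Finset.induction_on with
    | empty =>
      intro _
      exact ⟨s, fun _ _ => rfl, by rw [Finset.union_empty]; exact hs⟩
    | insert v D hv ih =>
      intro hD
      obtain ⟨s', h1, h2⟩ := ih fun w hw => hD (Finset.mem_insert_of_mem hw)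
      rw [Finset.union_insert]
      by_cases hvV : v ∈ V
      · refine ⟨s', h1, ?_⟩
        rw [Finset.insert_eq_of_mem (Finset.mem_union_left _ hvV)]
        exact h2
      · have hsub : insert v (V ∪ D) ⊆ V' := by
          intro w hw
          rw [Finset.mem_insert, Finset.mem_union] at hw
          rcases hw with rfl | hw | hw
          · exact hD (Finset.mem_insert_self _ _)
          · exact hVV' hw
          · exact hD (Finset.mem_insert_of_mem hw)
        have hc : (insert v (V ∪ D)).card ≤ K := (Finset.card_le_card hsub).trans hcard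
        obtain ⟨s'', h3, h4⟩ := good_step hE hc h2
        refine ⟨s'', fun w hw => ?_, h4⟩
        rw [h3 w (by rintro rfl; exact hvV hw), h1 w hw]
  obtain ⟨s', h1, h2⟩ := key V' subset_rfl
  exact ⟨s', h1, by rwa [Finset.union_eq_right.2 hVV'] at h2⟩

/-- Good assignments satisfy the equations all of whose variables lie in `V`. -/
lemma Good.eq {ℓ : E → Fin d → Fin M} {ε : E → ZMod 2} {K : ℕ} (hK : 1 ≤ K)
    {V : Finset (Fin d × Fin M)} {s : Fin d × Fin M → ZMod 2} (h : Good ℓ ε K V s) (e : E)
    (he : ∀ i, (i, ℓ e i) ∈ V) : ∑ i, s (i, ℓ e i) = ε e := by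
  have h1 := h {e} (by simpa using hK) (by
    intro v hv
    simp only [av, Finset.sum_singleton]
    rw [if_neg]
    intro hev
    apply hv
    have := he v.1
    rw [hev] at this
    exact this)
  simp only [defect, Finset.sum_singleton] at h1
  have h2 := z2_self (ε e)
  linear_combination h1 - h2

end Pool.Agent.CircWL
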