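import Mathlib
import Pool.Agent.CircWL.Local

/-!
# Existence of expanding systems
-/

set_option linter.unusedSectionVars false

open Finset

namespace Pool.Agent.CircWL

/-! ### Numbers -/

lemma choose_le (n s : ℕ) (hs : 1 ≤ s) : (n.choose s : ℝ) ≤ (3 * n / s) ^ s := by
  have h1 : (n.choose s : ℝ) ≤ (n : ℝ) ^ s / (s.factorial : ℝ) := Nat.choose_le_pow_div s n
  have h2 : ((s : ℝ)) ^ s / (s.factorial : ℝ) ≤ 3 ^ s := by
    refine (Real.pow_div_factorial_le_exp (s : ℝ) (Nat.cast_nonneg s) s).trans ?_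
    have h3 : Real.exp (s : ℝ) = Real.exp 1 ^ s := by
      rw [← Real.exp_nat_mul, mul_one]
    rw [h3]
    refine pow_le_pow_left₀ (Real.exp_pos 1).le ?_ s
    linarith [Real.exp_one_lt_d9]
  have hs0 : (0 : ℝ) < (s : ℝ) ^ s := by positivity
  have hf : (0 : ℝ) < (s.factorial : ℝ) := by exact_mod_cast s.factorial_pos
  refine h1.trans ?_
  rw [div_pow, mul_pow, div_le_div_iff₀ hf hs0]
  rw [div_le_iff₀ hf] at h2
  have h4 : (0 : ℝ) ≤ (n : ℝ) ^ s := by positivity
  nlinarith [mul_le_mul_of_nonneg_left h2 h4]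

lemma amgm {d : ℕ} (hd : 0 < d) (w : Fin d → ℝ) (hw : ∀ i, 0 ≤ w i) :
    ∏ i, w i ≤ ((∑ i, w i) / d) ^ d := by
  have hd' : (0 : ℝ) < d := by exact_mod_cast hd
  have h1 := Real.geom_mean_le_arith_mean_weighted (Finset.univ : Finset (Fin d))
    (fun _ => (1 : ℝ) / d) w (fun _ _ => by positivity) (by
      rw [Finset.sum_const, Finset.card_univ, Fintype.card_fin, nsmul_eq_mul]
      field_simp) (fun i _ => hw i)
  have h2 : ∑ i, (1 : ℝ) / d * w i = (∑ i, w i) / d := by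
    rw [← Finset.mul_sum]; ring
  rw [h2] at h1
  have h3 : ∏ i, w i = (∏ i, w i ^ ((1 : ℝ) / d)) ^ d := by
    rw [← Finset.prod_pow]
    apply Finset.prod_congr rfl
    intro i _
    rw [← Real.rpow_natCast, ← Real.rpow_mul (hw i), one_div, inv_mul_cancel₀ hd'.ne',
      Real.rpow_one]
  rw [h3]
  exact pow_le_pow_left₀ (Finset.prod_nonneg fun i _ => Real.rpow_nonneg (hw i) _) h1 d

/-! ### The variables of a non-expanding set -/

variable {d M N : ℕ}

/-- the number of occurrences of a variable -/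
def cnt (ℓ : Fin N → Fin d → Fin M) (S : Finset (Fin N)) (v : Fin d × Fin M) : ℕ :=
  (S.filter fun e => ℓ e v.1 = v.2).card

lemma sum_cnt (ℓ : Fin N → Fin d → Fin M) (S : Finset (Fin N)) :
    ∑ v, cnt ℓ S v = d * S.card := by
  unfold cnt
  simp only [Finset.card_filter]
  rw [Finset.sum_comm]
  have h1 : ∀ e ∈ S, ∑ v : Fin d × Fin M, (if ℓ e v.1 = v.2 then 1 else 0) = d := by
    intro e _
    rw [Fintype.sum_prod_type]
    have h2 : ∀ i ∈ (Finset.univ : Finset (Fin d)),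
        ∑ l : Fin M, (if ℓ e (i, l).1 = (i, l).2 then 1 else 0) = 1 := by
      intro i _
      simp
    rw [Finset.sum_congr rfl h2]
    simp
  rw [Finset.sum_congr rfl h1, Finset.sum_const, smul_eq_mul, mul_comm]

lemma av_eq_cnt (ℓ : Fin N → Fin d → Fin M) (S : Finset (Fin N)) (v : Fin d × Fin M) :
    av ℓ S v = (cnt ℓ S v : ZMod 2) := by
  unfold av cnt
  rw [Finset.card_filter, Nat.cast_sum]
  apply Finset.sum_congr rfl
  intro e _
  split_ifs <;> simp

/-- the set of variables which occur -/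
def occ (ℓ : Fin N → Fin d → Fin M) (S : Finset (Fin N)) : Finset (Fin d × Fin M) :=
  Finset.univ.filter fun v => 0 < cnt ℓ S v

lemma card_occ (ℓ : Fin N → Fin d → Fin M) (S : Finset (Fin N)) :
    2 * (occ ℓ S).card ≤ d * S.card + (supp ℓ S).card := by
  rw [← sum_cnt ℓ S, occ, supp, Finset.card_filter, Finset.card_filter, Finset.mul_sum,
    ← Finset.sum_add_distrib]
  apply Finset.sum_le_sum
  intro v _
  rw [av_eq_cnt]
  rcases Nat.lt_or_ge (cnt ℓ S v) 2 with h | h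
  · interval_cases h1 : cnt ℓ S v
    · simp
    · simp
  · have h2 : (if 0 < cnt ℓ S v then 1 else 0) ≤ 1 := by split_ifs <;> omega
    have h3 : 0 ≤ (if ((cnt ℓ S v : ℕ) : ZMod 2) ≠ 0 then 1 else 0) := Nat.zero_le _
    omega

lemma mem_occ (ℓ : Fin N → Fin d → Fin M) {S : Finset (Fin N)} {e : Fin N} (he : e ∈ S)
    (i : Fin d) : (i, ℓ e i) ∈ occ ℓ S := by
  rw [occ, Finset.mem_filter]
  refine ⟨Finset.mem_univ _, Finset.card_pos.2 ⟨e, ?_⟩⟩
  rw [Finset.mem_filter]
  exact ⟨he, rfl⟩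

/-! ### Counting -/

/-- the systems for which all variables of the equations of `S` lie in `W` -/
def badSet (S : Finset (Fin N)) (W : Finset (Fin d × Fin M)) : Finset (Fin N → Fin d → Fin M) :=
  Fintype.piFinset fun e => if e ∈ S then
    Fintype.piFinset (fun i => Finset.univ.filter fun l => (i, l) ∈ W) else Finset.univ

lemma mem_badSet {S : Finset (Fin N)} {W : Finset (Fin d × Fin M)} {ℓ : Fin N → Fin d → Fin M} :
    ℓ ∈ badSet S W ↔ ∀ e ∈ S, ∀ i, (i, ℓ e i) ∈ W := by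
  unfold badSet
  rw [Fintype.mem_piFinset]
  refine forall_congr' fun e => ?_
  by_cases he : e ∈ S
  · rw [if_pos he, Fintype.mem_piFinset]
    simp [he]
  · simp [he]

lemma sum_card_chain (W : Finset (Fin d × Fin M)) :
    ∑ i : Fin d, (Finset.univ.filter fun l : Fin M => (i, l) ∈ W).card = W.card := by
  simp only [Finset.card_filter]
  have h1 : ∑ v : Fin d × Fin M, (if v ∈ W then 1 else 0) = W.card := by
    simp
  rw [← h1, Fintype.sum_prod_type]

lemma card_badSet (hd : 0 < d) (S : Finset (Fin N)) (W : Finset (Fin d × Fin M)) :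
    ((badSet S W).card : ℝ) ≤ (((W.card : ℝ) / d) ^ d) ^ S.card * (((M : ℝ) ^ d)) ^ (N - S.card) := by
  unfold badSet
  rw [Fintype.card_piFinset]
  have h1 : ∀ e : Fin N, ((if e ∈ S then
      Fintype.piFinset (fun i : Fin d => Finset.univ.filter fun l : Fin M => (i, l) ∈ W) else
        Finset.univ).card : ℕ) = if e ∈ S then
          ∏ i : Fin d, (Finset.univ.filter fun l : Fin M => (i, l) ∈ W).card else M ^ d := by
    intro e
    split_ifs
    · rw [Fintype.card_piFinset]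
    · simp
  simp only [h1]
  rw [Finset.prod_ite, Finset.prod_const, Finset.prod_const]
  have h2 : (Finset.univ.filter fun e => e ∈ S) = S := by simp
  have h3 : (Finset.univ.filter fun e => ¬ e ∈ S).card = N - S.card := by
    have h4 : (Finset.univ.filter fun e => ¬ e ∈ S) = Sᶜ := by
      ext e; simp
    rw [h4, Finset.card_compl, Fintype.card_fin]
  rw [h2, h3]
  push_cast
  refine mul_le_mul_of_nonneg_right ?_ (by positivity)
  refine pow_le_pow_left₀ (Finset.prod_nonneg fun i _ => Nat.cast_nonneg _) ?_ _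
  refine (amgm hd _ fun i => Nat.cast_nonneg _).trans_eq ?_
  rw [← sum_card_chain W]
  push_cast
  rfl

lemma not_expand {K : ℕ} (hK : 6 * K ≤ 10 * M) {ℓ : Fin N → Fin 10 → Fin M}
    (h : ¬ Expand ℓ K) : ∃ s ∈ Finset.Icc 1 K, ∃ S ∈ Finset.powersetCard s Finset.univ,
      ∃ W ∈ Finset.powersetCard (6 * s) Finset.univ, ℓ ∈ badSet S W := by
  rw [Expand] at h
  push Not at h
  obtain ⟨S, hS, hlt⟩ := h
  have h1 := card_occ ℓ S
  have hs : 1 ≤ S.card := by
    rcases Nat.eq_zero_or_pos S.card with h0 | h0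
    · omega
    · exact h0
  have h2 : (occ ℓ S).card ≤ 6 * S.card := by omega
  have h3 : 6 * S.card ≤ (Finset.univ : Finset (Fin 10 × Fin M)).card := by
    rw [Finset.card_univ, Fintype.card_prod, Fintype.card_fin, Fintype.card_fin]
    omega
  obtain ⟨W, hW1, _, hW2⟩ := Finset.exists_subsuperset_card_eq (Finset.subset_univ (occ ℓ S)) h2 h3
  refine ⟨S.card, Finset.mem_Icc.2 ⟨hs, hS⟩, S, by simp [Finset.mem_powersetCard], W,
    by simp [Finset.mem_powersetCard, hW2], ?_⟩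
  rw [mem_badSet]
  intro e he i
  exact hW1 (mem_occ ℓ he i)

lemma term_le {k s : ℕ} (hk : 1 ≤ k) (hs : 1 ≤ s) (hsk : s ≤ 10 * k) :
    ((2000 * k + 1).choose s : ℝ) * ((2000 * k).choose (6 * s) : ℝ) *
      (((((6 * s : ℕ) : ℝ) / (10 : ℕ)) ^ 10) ^ s *
        ((((200 * k : ℕ) : ℝ) ^ 10)) ^ (2000 * k + 1 - s)) ≤
      (1 / 2) ^ s * (((200 * k : ℕ) : ℝ) ^ 10) ^ (2000 * k + 1) := by
  have hk' : (0 : ℝ) < k := by exact_mod_cast hk
  have hs' : (0 : ℝ) < s := by exact_mod_cast hs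
  have hsk' : (s : ℝ) ≤ 10 * k := by exact_mod_cast hsk
  have hk1 : (1 : ℝ) ≤ k := by exact_mod_cast hk
  have h1 := choose_le (2000 * k + 1) s hs
  have h2 := choose_le (2000 * k) (6 * s) (by omega)
  have hle : s ≤ 2000 * k + 1 := by omega
  set m : ℝ := ((200 * k : ℕ) : ℝ) with hm
  have hmk : m = 200 * k := by rw [hm]; push_cast; ring
  have hm0 : 0 < m := by rw [hmk]; positivity
  have h3 : (m ^ 10) ^ (2000 * k + 1) = (m ^ 10) ^ s * (m ^ 10) ^ (2000 * k + 1 - s) := by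
    rw [← pow_add, Nat.add_sub_cancel' hle]
  rw [h3]
  have h4 : ((3 * ((2000 * k + 1 : ℕ) : ℝ) / s)) ^ s *
      ((3 * ((2000 * k : ℕ) : ℝ) / ((6 * s : ℕ) : ℝ))) ^ (6 * s) *
      ((((6 * s : ℕ) : ℝ) / (10 : ℕ)) ^ 10) ^ s ≤ (1 / 2) ^ s * (m ^ 10) ^ s := by
    rw [pow_mul, ← mul_pow, ← mul_pow, ← mul_pow]
    refine pow_le_pow_left₀ (by positivity) ?_ s
    rw [hmk]
    push_cast
    have e1 : 3 * (2000 * (k : ℝ) + 1) / s * (3 * (2000 * k) / (6 * s)) ^ 6 * (6 * s / 10) ^ 10 =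
        3 * (2000 * k + 1) * (1000 * k) ^ 6 * (3 / 5) ^ 10 * s ^ 3 := by
      field_simp
      ring
    rw [e1]
    have e2 : (s : ℝ) ^ 3 ≤ (10 * k) ^ 3 := pow_le_pow_left₀ hs'.le hsk' 3
    calc 3 * (2000 * (k : ℝ) + 1) * (1000 * (k : ℝ)) ^ 6 * (3 / 5) ^ 10 * (s : ℝ) ^ 3 ≤
        3 * (2000 * (k : ℝ) + 1 * k) * (1000 * (k : ℝ)) ^ 6 * (3 / 5) ^ 10 * (10 * (k : ℝ)) ^ 3 := by
          gcongr
          linarith
      _ ≤ 1 / 2 * (200 * (k : ℝ)) ^ 10 := by
          have e3 : 3 * (2000 * (k : ℝ) + 1 * k) * (1000 * k) ^ 6 * (3 / 5) ^ 10 * (10 * k) ^ 3 =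
            (3 * 2001 * 1000 ^ 6 * (3 / 5) ^ 10 * 1000) * k ^ 10 := by ring
          have e4 : 1 / 2 * (200 * (k : ℝ)) ^ 10 = (1 / 2 * 200 ^ 10) * k ^ 10 := by ring
          rw [e3, e4]
          refine mul_le_mul_of_nonneg_right ?_ (by positivity)
          norm_num
  calc ((2000 * k + 1).choose s : ℝ) * ((2000 * k).choose (6 * s) : ℝ) *
      (((((6 * s : ℕ) : ℝ) / (10 : ℕ)) ^ 10) ^ s * (m ^ 10) ^ (2000 * k + 1 - s)) ≤
      (3 * ((2000 * k + 1 : ℕ) : ℝ) / s) ^ s *
        (3 * ((2000 * k : ℕ) : ℝ) / ((6 * s : ℕ) : ℝ)) ^ (6 * s) *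
        (((((6 * s : ℕ) : ℝ) / (10 : ℕ)) ^ 10) ^ s * (m ^ 10) ^ (2000 * k + 1 - s)) := by
        gcongr
    _ = ((3 * ((2000 * k + 1 : ℕ) : ℝ) / s) ^ s *
        (3 * ((2000 * k : ℕ) : ℝ) / ((6 * s : ℕ) : ℝ)) ^ (6 * s) *
        ((((6 * s : ℕ) : ℝ) / (10 : ℕ)) ^ 10) ^ s) * (m ^ 10) ^ (2000 * k + 1 - s) := by ring
    _ ≤ ((1 / 2) ^ s * (m ^ 10) ^ s) * (m ^ 10) ^ (2000 * k + 1 - s) :=
        mul_le_mul_of_nonneg_right h4 (by positivity)
    _ = _ := by ring

lemma geom_lt (K : ℕ) : ∑ s ∈ Finset.Icc 1 K, (1 / 2 : ℝ) ^ s = 1 - (1 / 2) ^ K := by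
  induction K with
  | zero => simp
  | succ K ih =>
    rw [Finset.sum_Icc_succ_top (by omega), ih, pow_succ]
    ring

/-- There is an expanding system with more equations than variables. -/
theorem exists_expand {k : ℕ} (hk : 1 ≤ k) :
    ∃ ℓ : Fin (2000 * k + 1) → Fin 10 → Fin (200 * k), Expand ℓ (10 * k) := by
  by_contra hcon
  push Not at hcon
  have h1 : (Finset.univ : Finset (Fin (2000 * k + 1) → Fin 10 → Fin (200 * k))) ⊆
      (Finset.Icc 1 (10 * k)).biUnion fun s => (Finset.powersetCard s Finset.univ).biUnion fun S =>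
        (Finset.powersetCard (6 * s) Finset.univ).biUnion fun W => badSet S W := by
    intro ℓ _
    obtain ⟨s, hs, S, hS, W, hW, h⟩ := not_expand (by omega) (hcon ℓ)
    simp only [Finset.mem_biUnion]
    exact ⟨s, hs, S, hS, W, hW, h⟩
  have h2 := Finset.card_le_card h1
  have h3 : (((Finset.univ : Finset (Fin (2000 * k + 1) → Fin 10 → Fin (200 * k))).card : ℕ) : ℝ) =
      (((200 * k : ℕ) : ℝ) ^ 10) ^ (2000 * k + 1) := by
    rw [Finset.card_univ, Fintype.card_fun, Fintype.card_fun, Fintype.card_fin, Fintype.card_fin,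
      Fintype.card_fin]
    push_cast
    rfl
  have h4 : (((200 * k : ℕ) : ℝ) ^ 10) ^ (2000 * k + 1) ≤ ∑ s ∈ Finset.Icc 1 (10 * k),
      (1 / 2) ^ s * (((200 * k : ℕ) : ℝ) ^ 10) ^ (2000 * k + 1) := by
    rw [← h3]
    refine (Nat.cast_le.2 h2).trans ?_
    rw [h3]
    refine (Nat.cast_le.2 Finset.card_biUnion_le).trans ?_
    push_cast
    apply Finset.sum_le_sum
    intro s hs
    rw [Finset.mem_Icc] at hs
    have h5 : (((Finset.powersetCard s (Finset.univ : Finset (Fin (2000 * k + 1)))).biUnion fun S =>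
        (Finset.powersetCard (6 * s) (Finset.univ : Finset (Fin 10 × Fin (200 * k)))).biUnion
          fun W => badSet S W).card : ℝ) ≤
        ((2000 * k + 1).choose s : ℝ) * ((2000 * k).choose (6 * s) : ℝ) *
      (((((6 * s : ℕ) : ℝ) / (10 : ℕ)) ^ 10) ^ s *
        ((((200 * k : ℕ) : ℝ) ^ 10)) ^ (2000 * k + 1 - s)) := by
      refine (Nat.cast_le.2 Finset.card_biUnion_le).trans ?_
      rw [Nat.cast_sum]
      have h6 : ∀ S ∈ Finset.powersetCard s (Finset.univ : Finset (Fin (2000 * k + 1))),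
          (((Finset.powersetCard (6 * s) (Finset.univ : Finset (Fin 10 × Fin (200 * k)))).biUnion
          fun W => badSet S W).card : ℝ) ≤ ((2000 * k).choose (6 * s) : ℝ) *
      (((((6 * s : ℕ) : ℝ) / (10 : ℕ)) ^ 10) ^ s *
        ((((200 * k : ℕ) : ℝ) ^ 10)) ^ (2000 * k + 1 - s)) := by
        intro S hS
        rw [Finset.mem_powersetCard] at hS
        refine (Nat.cast_le.2 Finset.card_biUnion_le).trans ?_
        rw [Nat.cast_sum]
        have h7 : ∀ W ∈ Finset.powersetCard (6 * s)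
            (Finset.univ : Finset (Fin 10 × Fin (200 * k))), ((badSet S W).card : ℝ) ≤
            (((((6 * s : ℕ) : ℝ) / (10 : ℕ)) ^ 10) ^ s *
              ((((200 * k : ℕ) : ℝ) ^ 10)) ^ (2000 * k + 1 - s)) := by
          intro W hW
          rw [Finset.mem_powersetCard] at hW
          have h8 := card_badSet (d := 10) (by omega) S W
          rw [hS.2, hW.2] at h8
          exact h8
        refine (Finset.sum_le_sum h7).trans_eq ?_
        rw [Finset.sum_const, Finset.card_powersetCard, Finset.card_univ, Fintype.card_prod,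
          Fintype.card_fin, Fintype.card_fin, nsmul_eq_mul]
        congr 3
        omega
      refine (Finset.sum_le_sum h6).trans_eq ?_
      rw [Finset.sum_const, Finset.card_powersetCard, Finset.card_univ, Fintype.card_fin,
        nsmul_eq_mul]
      ring
    have h9 := h5.trans (term_le hk hs.1 hs.2)
    push_cast at h9 ⊢
    exact h9
  rw [← Finset.sum_mul, geom_lt] at h4
  have h5 : (0 : ℝ) < (((200 * k : ℕ) : ℝ) ^ 10) ^ (2000 * k + 1) := by
    have : (0 : ℝ) < ((200 * k : ℕ) : ℝ) := by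
      exact_mod_cast (by omega : 0 < 200 * k)
    positivity
  have h6 : (0 : ℝ) < (1 / 2 : ℝ) ^ (10 * k) := by positivity
  nlinarith [mul_pos h5 h6]

/-- A system with more equations than variables is unsolvable for some right side. -/
theorem exists_unsolvable {d M N : ℕ} (h : d * M < N) (ℓ : Fin N → Fin d → Fin M) :
    ∃ ε : Fin N → ZMod 2, ¬ ∃ s : Fin d × Fin M → ZMod 2, ∀ e, ∑ i, s (i, ℓ e i) = ε e := by
  by_contra hcon
  push Not at hcon
  have h1 : Function.Surjective fun (s : Fin d × Fin M → ZMod 2) (e : Fin N) =>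
      ∑ i, s (i, ℓ e i) := by
    intro ε
    obtain ⟨s, hs⟩ := hcon ε
    exact ⟨s, funext hs⟩
  have h2 := Fintype.card_le_of_surjective _ h1
  rw [Fintype.card_fun, Fintype.card_fun, ZMod.card, Fintype.card_prod, Fintype.card_fin,
    Fintype.card_fin, Fintype.card_fin] at h2
  exact absurd h2 (not_le.2 (Nat.pow_lt_pow_right (by omega) h))

end Pool.Agent.CircWL
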