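import Mathlib
import Pool.Agent.CircWL.Local

/-!
# Pebbles on a product of chains

`A v`, `v = (i, l)`, are finite commutative groups; the elements of `∀ v, A v` are ordered in `d`
chains of `M` levels. Two elements *agree above `v = (i, l)`* if their coordinates in chain `i` are
equal at all levels above `l`.
-/

set_option linter.unusedSectionVars false

open Finset

namespace Pool.Agent.CircWL

variable {d M : ℕ} {A : Fin d × Fin M → Type} [∀ v, AddCommGroup (A v)]

/-- `x` and `y` have the same coordinates in the chain of `v` at all levels above `v` -/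
def Agree (x y : ∀ v, A v) (v : Fin d × Fin M) : Prop :=
  ∀ l', v.2 < l' → x (v.1, l') = y (v.1, l')

lemma Agree.refl (x : ∀ v, A v) (v : Fin d × Fin M) : Agree x x v := fun _ _ => rfl

lemma Agree.symm {x y : ∀ v, A v} {v : Fin d × Fin M} (h : Agree x y v) : Agree y x v :=
  fun l' hl => (h l' hl).symm

lemma Agree.trans {x y z : ∀ v, A v} {v : Fin d × Fin M} (h : Agree x y v) (h' : Agree y z v) :
    Agree x z v := fun l' hl => (h l' hl).trans (h' l' hl)

/-- twist by `s` -/
def gs (g : ∀ v, A v ≃+ A v) (s : ZMod 2) (v : Fin d × Fin M) : A v ≃+ A v :=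
  if s = 0 then AddEquiv.refl _ else g v

/-- the comparison of two configurations of pebbles -/
def Cmp (g : ∀ v, A v ≃+ A v) {ι : Type} (s : Fin d × Fin M → ZMod 2) (x y : ι → ∀ v, A v) :
    Prop :=
  ∀ a b v, Agree (x a) (x b) v → y a v - y b v = gs g (s v) v (x a v - x b v)

variable {g : ∀ v, A v ≃+ A v} {ι κ : Type} {s s' : Fin d × Fin M → ZMod 2} {x y : ι → ∀ v, A v}

lemma Cmp.comp (h : Cmp g s x y) (f : κ → ι) : Cmp g s (x ∘ f) (y ∘ f) :=
  fun a b v hab => h (f a) (f b) v hab

lemma Cmp.agree (h : Cmp g s x y) (a b : ι) (v : Fin d × Fin M) (hab : Agree (x a) (x b) v) :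
    Agree (y a) (y b) v := by
  intro l' hl
  have h1 := h a b (v.1, l') fun l'' hl'' => hab l'' (hl.trans hl'')
  rw [hab l' hl, sub_self, map_zero] at h1
  exact sub_eq_zero.1 h1

lemma Cmp.agree_rev (h : Cmp g s x y) (a b : ι) (v : Fin d × Fin M)
    (hab : Agree (y a) (y b) v) : Agree (x a) (x b) v := by
  have key : ∀ n : ℕ, ∀ l' : Fin M, M - 1 - l'.val ≤ n → v.2 < l' → x a (v.1, l') = x b (v.1, l') := by
    intro n
    induction n with
    | zero =>
      intro l' hn hl
      have h1 := h a b (v.1, l') fun l'' hl'' => by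
        have : l''.val < M := l''.2
        have h3 : l'.val < l''.val := hl''
        omega
      rw [hab l' hl, sub_self] at h1
      exact sub_eq_zero.1 ((map_eq_zero_iff _ (gs g _ _).injective).1 h1.symm)
    | succ n ih =>
      intro l' hn hl
      have h1 := h a b (v.1, l') fun l'' hl'' => by
        have h3 : l'.val < l''.val := hl''
        have : l''.val < M := l''.2
        exact ih l'' (by omega) (hl.trans hl'')
      rw [hab l' hl, sub_self] at h1
      exact sub_eq_zero.1 ((map_eq_zero_iff _ (gs g _ _).injective).1 h1.symm)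
  exact fun l' hl => key _ l' le_rfl hl

/-- the levels at which two of the pebbles of `T` split -/
noncomputable def seenOn (x : ι → ∀ v, A v) (T : Finset ι) : Finset (Fin d × Fin M) := by
  classical
  exact Finset.univ.filter fun v => ∃ a ∈ T, ∃ b ∈ T, Agree (x a) (x b) v ∧ x a v ≠ x b v

lemma mem_seenOn {x : ι → ∀ v, A v} {T : Finset ι} {v : Fin d × Fin M} :
    v ∈ seenOn x T ↔ ∃ a ∈ T, ∃ b ∈ T, Agree (x a) (x b) v ∧ x a v ≠ x b v := by
  classical
  simp [seenOn]

lemma card_seenOn [DecidableEq ι] (x : ι → ∀ v, A v) (T : Finset ι) :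
    (seenOn x T).card ≤ d * (T.card - 1) := by
  classical
  induction T using Finset.induction_on with
  | empty =>
    have h0 : seenOn x ∅ = ∅ := by
      rw [Finset.eq_empty_iff_forall_notMem]
      intro v hv
      rw [mem_seenOn] at hv
      obtain ⟨a, ha, _⟩ := hv
      simp at ha
    rw [h0, Finset.card_empty]
    exact Nat.zero_le _
  | insert c T hc ih =>
    have h1 : seenOn x (insert c T) ⊆ seenOn x T ∪
        (Finset.univ.filter fun v => v ∉ seenOn x T ∧ ∃ a ∈ T, Agree (x a) (x c) v ∧ x a v ≠ x c v) := by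
      intro v hv
      rw [Finset.mem_union, Finset.mem_filter]
      by_cases hvT : v ∈ seenOn x T
      · exact Or.inl hvT
      right
      refine ⟨Finset.mem_univ _, hvT, ?_⟩
      rw [mem_seenOn] at hv
      obtain ⟨a, ha, b, hb, hab, hne⟩ := hv
      rw [Finset.mem_insert] at ha hb
      rcases ha with rfl | ha
      · rcases hb with rfl | hb
        · exact absurd rfl hne
        · exact ⟨b, hb, hab.symm, hne.symm⟩
      · rcases hb with rfl | hb
        · exact ⟨a, ha, hab, hne⟩
        · exact absurd (mem_seenOn.2 ⟨a, ha, b, hb, hab, hne⟩) hvT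
    rcases T.eq_empty_or_nonempty with hT | hT
    · subst hT
      have h5 : seenOn x (insert c ∅) = ∅ := by
        rw [Finset.eq_empty_iff_forall_notMem]
        intro v hv
        rw [mem_seenOn] at hv
        obtain ⟨a, ha, b, hb, hab, hne⟩ := hv
        simp only [insert_empty_eq, Finset.mem_singleton] at ha hb
        rw [ha, hb] at hne
        exact hne rfl
      rw [h5, Finset.card_empty]
      exact Nat.zero_le _
    have h2 : (Finset.univ.filter fun v => v ∉ seenOn x T ∧
        ∃ a ∈ T, Agree (x a) (x c) v ∧ x a v ≠ x c v).card ≤ d := by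
      have h3 : Set.InjOn (Prod.fst : Fin d × Fin M → Fin d)
          (Finset.univ.filter fun v => v ∉ seenOn x T ∧
            ∃ a ∈ T, Agree (x a) (x c) v ∧ x a v ≠ x c v : Finset (Fin d × Fin M)) := by
        have aux : ∀ v w : Fin d × Fin M, v.1 = w.1 → v.2 < w.2 →
            (∃ a ∈ T, Agree (x a) (x c) v ∧ x a v ≠ x c v) →
            (∃ a ∈ T, Agree (x a) (x c) w ∧ x a w ≠ x c w) → w ∈ seenOn x T := by
          rintro ⟨i, l⟩ ⟨j, m⟩ hij hlm ⟨a, ha, ha1, ha2⟩ ⟨b, hb, hb1, hb2⟩
          simp only at hij hlm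
          subst hij
          rw [mem_seenOn]
          refine ⟨a, ha, b, hb, ?_, ?_⟩
          · exact Agree.trans (fun l' hl' => ha1 l' (hlm.trans hl')) hb1.symm
          · rw [ha1 m hlm]
            exact hb2.symm
        intro v hv w hw hvw
        rw [Finset.mem_coe, Finset.mem_filter] at hv hw
        rcases lt_trichotomy v.2 w.2 with h | h | h
        · exact absurd (aux v w hvw h hv.2.2 hw.2.2) hw.2.1
        · exact Prod.ext hvw h
        · exact absurd (aux w v hvw.symm h hw.2.2 hv.2.2) hv.2.1
      have h4 := Finset.card_le_card_of_injOn (t := (Finset.univ : Finset (Fin d))) _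
        (fun _ _ => Finset.mem_univ _) h3
      simpa using h4
    rw [Finset.card_insert_of_notMem hc]
    have h6 : 1 ≤ T.card := Finset.card_pos.2 hT
    calc (seenOn x (insert c T)).card ≤ _ := Finset.card_le_card h1
      _ ≤ _ := Finset.card_union_le _ _
      _ ≤ d * (T.card - 1) + d := Nat.add_le_add ih h2
      _ = d * (T.card - 1 + 1) := by ring
      _ = d * (T.card + 1 - 1) := by rw [Nat.sub_add_cancel h6, Nat.add_sub_cancel]

/-- the levels at which two of the pebbles split -/
noncomputable def seen [Fintype ι] (x : ι → ∀ v, A v) : Finset (Fin d × Fin M) :=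
  seenOn x Finset.univ

lemma mem_seen [Fintype ι] {x : ι → ∀ v, A v} {v : Fin d × Fin M} :
    v ∈ seen x ↔ ∃ a b, Agree (x a) (x b) v ∧ x a v ≠ x b v := by
  rw [seen, mem_seenOn]
  simp

lemma card_seen [Fintype ι] (x : ι → ∀ v, A v) : (seen x).card ≤ d * (Fintype.card ι - 1) := by
  classical
  exact card_seenOn x Finset.univ

lemma seen_comp [Fintype ι] [Fintype κ] (x : ι → ∀ v, A v) (f : κ → ι) : seen (x ∘ f) ⊆ seen x := by
  intro v hv
  rw [mem_seen] at hv ⊢
  obtain ⟨a, b, h1, h2⟩ := hv
  exact ⟨f a, f b, h1, h2⟩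

lemma Cmp.seen_eq [Fintype ι] (h : Cmp g s x y) : seen y = seen x := by
  ext v
  rw [mem_seen, mem_seen]
  constructor
  · rintro ⟨a, b, h1, h2⟩
    have h3 := h.agree_rev a b v h1
    refine ⟨a, b, h3, fun h4 => h2 ?_⟩
    have h5 := h a b v h3
    rw [h4, sub_self, map_zero] at h5
    exact sub_eq_zero.1 h5
  · rintro ⟨a, b, h1, h2⟩
    refine ⟨a, b, h.agree a b v h1, fun h4 => h2 ?_⟩
    have h5 := h a b v h1
    rw [h4, sub_self] at h5
    exact sub_eq_zero.1 ((map_eq_zero_iff _ (gs g _ _).injective).1 h5.symm)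

lemma Cmp.congr [Fintype ι] (h : Cmp g s x y) (hs : ∀ v ∈ seen x, s v = s' v) : Cmp g s' x y := by
  intro a b v hab
  by_cases h1 : x a v = x b v
  · have h2 := h a b v hab
    rw [h1, sub_self, map_zero] at h2 ⊢
    exact h2
  · rw [h a b v hab, hs v (mem_seen.2 ⟨a, b, hab, h1⟩)]

/-- add a pebble -/
def ext (x : ι → ∀ v, A v) (z : ∀ v, A v) (o : Option ι) : ∀ v, A v := o.elim z x

/-- the answer of the duplicator to the pebble `z`, for the twist `t` -/
noncomputable def ans (g : ∀ v, A v ≃+ A v) (x y : ι → ∀ v, A v) (t : Fin d × Fin M → ZMod 2)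
    (z : ∀ v, A v) (v : Fin d × Fin M) : A v := by
  classical
  exact if h : ∃ a, Agree (x a) z v then
    y h.choose v + gs g (t v) v (z v - x h.choose v) else z v

lemma ans_eq [Fintype ι] (h : Cmp g s x y) {t : Fin d × Fin M → ZMod 2}
    (ht : ∀ v ∈ seen x, s v = t v) {z : ∀ v, A v} {v : Fin d × Fin M} {a : ι}
    (ha : Agree (x a) z v) : ans g x y t z v = y a v + gs g (t v) v (z v - x a v) := by
  have h1 : ∃ a, Agree (x a) z v := ⟨a, ha⟩
  have h2 := h1.choose_spec
  rw [ans, dif_pos h1]
  have h3 := (h.congr ht) h1.choose a v (h2.trans ha.symm)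
  have h4 : z v - x a v = (z v - x h1.choose v) + (x h1.choose v - x a v) := by abel
  rw [h4, map_add, ← h3]
  abel

lemma ans_eq' {t : Fin d × Fin M → ZMod 2} {z : ∀ v, A v} {v : Fin d × Fin M}
    (ha : ¬ ∃ a, Agree (x a) z v) : ans g x y t z v = z v := by
  rw [ans, dif_neg ha]

lemma cmp_ans [Fintype ι] (h : Cmp g s x y) {t : Fin d × Fin M → ZMod 2}
    (ht : ∀ v ∈ seen x, s v = t v) (z : ∀ v, A v) :
    Cmp g t (ext x z) (ext y (ans g x y t z)) := by
  intro a b v hab
  rcases a with _ | a
  · rcases b with _ | b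
    · simp
    · change ans g x y t z v - y b v = gs g (t v) v (z v - x b v)
      have hab' : Agree (x b) z v := hab.symm
      rw [ans_eq h ht hab']
      abel
  · rcases b with _ | b
    · change y a v - ans g x y t z v = gs g (t v) v (x a v - z v)
      have hab' : Agree (x a) z v := hab
      rw [ans_eq h ht hab']
      have h4 : x a v - z v = - (z v - x a v) := by abel
      rw [h4, map_neg]
      abel
    · exact (h.congr ht) a b v hab

lemma ans_inj [Fintype ι] (h : Cmp g s x y) {t : Fin d × Fin M → ZMod 2}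
    (ht : ∀ v ∈ seen x, s v = t v) : Function.Injective (ans g x y t) := by
  intro z z' hzz
  have key : ∀ n : ℕ, ∀ v : Fin d × Fin M, M - 1 - v.2.val ≤ n → z v = z' v := by
    have step : ∀ v : Fin d × Fin M, Agree z z' v → z v = z' v := by
      intro v hv
      by_cases h1 : ∃ a, Agree (x a) z v
      · obtain ⟨a, ha⟩ := h1
        have h2 := congrFun hzz v
        rw [ans_eq h ht ha, ans_eq h ht (ha.trans hv)] at h2
        have h3 := (gs g (t v) v).injective (add_left_cancel h2)
        exact sub_left_injective h3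
      · have h1' : ¬ ∃ a, Agree (x a) z' v := fun ⟨a, ha⟩ => h1 ⟨a, ha.trans hv.symm⟩
        have h2 := congrFun hzz v
        rwa [ans_eq' h1, ans_eq' h1'] at h2
    intro n
    induction n with
    | zero =>
      intro v hv
      apply step
      intro l' hl'
      have h1 : v.2.val < l'.val := hl'
      have h2 : l'.val < M := l'.2
      omega
    | succ n ih =>
      intro v hv
      apply step
      intro l' hl'
      apply ih
      have h1 : v.2.val < l'.val := hl'
      have h2 : l'.val < M := l'.2
      simp only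
      omega
  exact funext fun v => key _ v le_rfl

/-- The answers to all pebbles form a bijection, even if the twist `T V` depends on the set `V` of the
levels which are seen after the pebble has been placed. -/
theorem exists_equiv [Fintype ι] [∀ v, Finite (A v)] (h : Cmp g s x y)
    (T : Finset (Fin d × Fin M) → Fin d × Fin M → ZMod 2)
    (hT : ∀ z : ∀ v, A v, ∀ v ∈ seen x, s v = T (seen (ext x z)) v) :
    ∃ e : (∀ v, A v) ≃ (∀ v, A v), ∀ z, Cmp g (T (seen (ext x z))) (ext x z) (ext y (e z)) := by
  have hinj : Function.Injective fun z => ans g x y (T (seen (ext x z))) z := by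
    intro z z' hzz
    have h1 := (cmp_ans h (hT z) z).seen_eq
    have h2 := (cmp_ans h (hT z') z').seen_eq
    simp only at hzz
    have h3 : seen (ext x z) = seen (ext x z') := by
      rw [← h1, ← h2, hzz]
    rw [h3] at hzz
    exact ans_inj h (hT z') hzz
  refine ⟨Equiv.ofBijective _ (Finite.injective_iff_bijective.1 hinj), fun z => ?_⟩
  exact cmp_ans h (hT z) z

end Pool.Agent.CircWL
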