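import Mathlib
import Pool.Agent.CircWL.Tree
import Pool.Agent.SRGWL.WL

/-!
# The Cayley graphs and the Weisfeiler-Leman algorithm
-/

set_option linter.unusedSectionVars false

open Finset

namespace Pool.Agent.CircWL

variable {d M : ℕ} {A : Fin d × Fin M → Type} [∀ v, AddCommGroup (A v)] {E : Type}

/-- The relations: `inl i`: the chain `i` is the only one in which the elements differ; `inr e`: the
last level of the chain `i` at which the elements differ is `ℓ e i`, for all `i`, and the sum of the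
characters of the differences at these levels is `ε e`. -/
def Rel (σ : ∀ v, A v → ZMod 2) (ℓ : E → Fin d → Fin M) (ε : E → ZMod 2) :
    Fin d ⊕ E → (∀ v, A v) → Prop
  | Sum.inl i, z => z ≠ 0 ∧ ∀ v, v.1 ≠ i → z v = 0
  | Sum.inr e, z => (∀ i l', ℓ e i < l' → z (i, l') = 0) ∧ (∀ i, z (i, ℓ e i) ≠ 0) ∧
      ∑ i, σ (i, ℓ e i) (z (i, ℓ e i)) = ε e

/-- the connection set -/
def Conn {s q : ℕ} (σ : ∀ v, A v → ZMod 2) (ℓ : E → Fin d → Fin M) (ε : E → ZMod 2)
    (lab : Fin d ⊕ E → ZMod q) (t : (∀ v, A v) × ZMod s × ZMod q) : Prop :=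
  (t.2.2 = 0 ∧ (t.1 ≠ 0 ∨ t.2.1 ≠ 0)) ∨ ((t.2.2 = 1 ∨ t.2.2 = -1) ∧ t.1 = 0 ∧ t.2.1 = 0) ∨
    ∃ r, (t.2.2 = lab r ∨ t.2.2 = - lab r) ∧ t.2.1 = 0 ∧ Rel σ ℓ ε r t.1

/-- the assumptions on the twist `g` and the character `σ` -/
structure Twist (g : ∀ v, A v ≃+ A v) (σ : ∀ v, A v → ZMod 2) : Prop where
  twist : ∀ v x, x ≠ 0 → σ v (g v x) = σ v x + 1
  neg : ∀ (t : Fin d → Fin M) (z : ∀ v, A v), (∀ i, z (i, t i) ≠ 0) →
    ∑ i, σ (i, t i) (- z (i, t i)) = ∑ i, σ (i, t i) (z (i, t i))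

variable {g : ∀ v, A v ≃+ A v} {σ : ∀ v, A v → ZMod 2} {ℓ : E → Fin d → Fin M} {ε : E → ZMod 2}

lemma Twist.gs (h : Twist g σ) (s : ZMod 2) (v : Fin d × Fin M) (x : A v) (hx : x ≠ 0) :
    σ v (gs g s v x) = σ v x + s := by
  unfold CircWL.gs
  split_ifs with hs
  · rw [hs, add_zero]; rfl
  · rw [z2_one s hs]
    exact h.twist v x hx

lemma Rel.neg (h : Twist g σ) {r : Fin d ⊕ E} {z : ∀ v, A v} (hz : Rel σ ℓ ε r z) :
    Rel σ ℓ ε r (-z) := by
  rcases r with i | e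
  · exact ⟨neg_ne_zero.2 hz.1, fun v hv => by rw [Pi.neg_apply, hz.2 v hv, neg_zero]⟩
  · refine ⟨fun i l' hl => by rw [Pi.neg_apply, hz.1 i l' hl, neg_zero],
      fun i => by rw [Pi.neg_apply]; exact neg_ne_zero.2 (hz.2.1 i), ?_⟩
    rw [← hz.2.2, ← h.neg (ℓ e) z hz.2.1]
    rfl

lemma Rel.ne_zero (hd : 0 < d) {r : Fin d ⊕ E} {z : ∀ v, A v} (hz : Rel σ ℓ ε r z) : z ≠ 0 := by
  rcases r with i | e
  · exact hz.1
  · rintro rfl
    exact hz.2.1 ⟨0, hd⟩ rfl

lemma conn_neg (h : Twist g σ) {s q : ℕ} {lab : Fin d ⊕ E → ZMod q}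
    {t : (∀ v, A v) × ZMod s × ZMod q} (ht : Conn σ ℓ ε lab t) : Conn σ ℓ ε lab (-t) := by
  rcases ht with ⟨h1, h2⟩ | ⟨h1, h2, h3⟩ | ⟨r, h1, h2, h3⟩
  · left
    refine ⟨by rw [Prod.snd_neg, Prod.snd_neg, h1, neg_zero], ?_⟩
    rcases h2 with h2 | h2
    · exact Or.inl (neg_ne_zero.2 h2)
    · exact Or.inr (neg_ne_zero.2 h2)
  · right; left
    refine ⟨?_, by rw [Prod.fst_neg, h2, neg_zero], by
      rw [Prod.snd_neg, Prod.fst_neg, h3, neg_zero]⟩
    rw [Prod.snd_neg, Prod.snd_neg]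
    rcases h1 with h1 | h1
    · right; rw [h1]
    · left; rw [h1, neg_neg]
  · right; right
    refine ⟨r, ?_, by rw [Prod.snd_neg, Prod.fst_neg, h2, neg_zero], by
      rw [Prod.fst_neg]; exact h3.neg h⟩
    rw [Prod.snd_neg, Prod.snd_neg]
    rcases h1 with h1 | h1
    · right; rw [h1]
    · left; rw [h1, neg_neg]

lemma conn_zero {s q : ℕ} (hd : 0 < d) (h10 : (1 : ZMod q) ≠ 0) {lab : Fin d ⊕ E → ZMod q} :
    ¬ Conn (s := s) σ ℓ ε lab 0 := by
  rintro (⟨_, h2⟩ | ⟨h1, _, _⟩ | ⟨r, _, _, h3⟩)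
  · rcases h2 with h2 | h2 <;> exact h2 rfl
  · rcases h1 with h1 | h1
    · exact h10 h1.symm
    · exact h10 (neg_eq_zero.1 h1.symm)
  · exact h3.ne_zero hd rfl

/-- the graph -/
def gr (h : Twist g σ) (ℓ : E → Fin d → Fin M) (ε : E → ZMod 2) {s q : ℕ}
    (lab : Fin d ⊕ E → ZMod q) : SimpleGraph ((∀ v, A v) × ZMod s × ZMod q) where
  Adj a b := a ≠ b ∧ Conn σ ℓ ε lab (a - b)
  symm := ⟨fun a b hab => ⟨hab.1.symm, by
    rw [← neg_sub]
    exact conn_neg h hab.2⟩⟩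
  loopless := ⟨fun a h => h.1 rfl⟩

/-- the invariant of the game -/
def Inv (g : ∀ v, A v ≃+ A v) [DecidableEq E] (ℓ : E → Fin d → Fin M) (ε : E → ZMod 2) (K : ℕ)
    {ι : Type} [Fintype ι] (x y : ι → ∀ v, A v) : Prop :=
  ∃ s, Good ℓ ε K (seen x) s ∧ Cmp g s x y

variable [DecidableEq E]

lemma Inv.comp {K : ℕ} {ι κ : Type} [Fintype ι] [Fintype κ] {x y : ι → ∀ v, A v}
    (h : Inv g ℓ ε K x y) (f : κ → ι) : Inv g ℓ ε K (x ∘ f) (y ∘ f) := by
  obtain ⟨s, h1, h2⟩ := h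
  exact ⟨s, h1.mono (seen_comp x f), h2.comp f⟩

lemma Cmp.eq_iff {ι : Type} {s : Fin d × Fin M → ZMod 2} {x y : ι → ∀ v, A v}
    (h : Cmp g s x y) (a b : ι) {P : Fin d → Prop} :
    (∀ v, P v.1 → x a v = x b v) ↔ (∀ v, P v.1 → y a v = y b v) := by
  constructor
  · intro h1 v hv
    have h2 := h a b v fun l' _ => h1 (v.1, l') hv
    rw [h1 v hv, sub_self, map_zero] at h2
    exact sub_eq_zero.1 h2
  · intro h1 v hv
    have h2 := h a b v (h.agree_rev a b v fun l' _ => h1 (v.1, l') hv)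
    rw [h1 v hv, sub_self] at h2
    exact sub_eq_zero.1 ((map_eq_zero_iff _ (CircWL.gs g _ _).injective).1 h2.symm)

lemma Cmp.eq_iff' {ι : Type} {s : Fin d × Fin M → ZMod 2} {x y : ι → ∀ v, A v}
    (h : Cmp g s x y) (a b : ι) : x a = x b ↔ y a = y b := by
  have h1 := h.eq_iff a b (P := fun _ => True)
  simp only [forall_true_left] at h1
  rw [funext_iff, funext_iff]
  exact h1

lemma Cmp.eq_top_iff {ι : Type} {s : Fin d × Fin M → ZMod 2} {x y : ι → ∀ v, A v}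
    (h : Cmp g s x y) (a b : ι) (v : Fin d × Fin M) (hv : Agree (x a) (x b) v) :
    x a v = x b v ↔ y a v = y b v := by
  have h2 := h a b v hv
  constructor
  · intro h3
    rw [h3, sub_self, map_zero] at h2
    exact sub_eq_zero.1 h2
  · intro h3
    rw [h3, sub_self] at h2
    exact sub_eq_zero.1 ((map_eq_zero_iff _ (CircWL.gs g _ _).injective).1 h2.symm)

lemma Inv.rel_iff (hg : Twist g σ) {K : ℕ} (hK : 1 ≤ K) {ι : Type} [Fintype ι]
    {x y : ι → ∀ v, A v} (h : Inv g ℓ ε K x y) (a b : ι) (r : Fin d ⊕ E) :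
    Rel σ ℓ 0 r (x a - x b) ↔ Rel σ ℓ ε r (y a - y b) := by
  obtain ⟨s, h1, h2⟩ := h
  rcases r with i | e
  · simp only [Rel, Pi.sub_apply, sub_eq_zero, ne_eq]
    rw [h2.eq_iff' a b, h2.eq_iff a b (P := fun j => ¬ j = i)]
  · simp only [Rel, Pi.sub_apply, sub_eq_zero, ne_eq, Pi.zero_apply]
    have e1 : (∀ i l', ℓ e i < l' → x a (i, l') = x b (i, l')) ↔
        (∀ i l', ℓ e i < l' → y a (i, l') = y b (i, l')) := by
      refine forall_congr' fun i => ?_
      exact ⟨fun h3 => h2.agree a b (i, ℓ e i) h3, fun h3 => h2.agree_rev a b (i, ℓ e i) h3⟩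
    rw [← e1]
    refine and_congr_right fun h3 => ?_
    have e2 : (∀ i, ¬ x a (i, ℓ e i) = x b (i, ℓ e i)) ↔
        (∀ i, ¬ y a (i, ℓ e i) = y b (i, ℓ e i)) := by
      refine forall_congr' fun i => not_congr ?_
      exact h2.eq_top_iff a b (i, ℓ e i) (h3 i)
    rw [← e2]
    refine and_congr_right fun h4 => ?_
    have e3 : ∑ i, σ (i, ℓ e i) (y a (i, ℓ e i) - y b (i, ℓ e i)) =
        ∑ i, σ (i, ℓ e i) (x a (i, ℓ e i) - x b (i, ℓ e i)) + ε e := by
      rw [← h1.eq hK e fun i => mem_seen.2 ⟨a, b, h3 i, h4 i⟩, ← Finset.sum_add_distrib]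
      apply Finset.sum_congr rfl
      intro i _
      rw [h2 a b (i, ℓ e i) (h3 i), hg.gs _ _ _ (sub_ne_zero.2 (h4 i))]
    rw [e3]
    exact (add_eq_right).symm

lemma Inv.adj_iff (hg : Twist g σ) {K : ℕ} (hK : 1 ≤ K) {ι : Type} [Fintype ι] {s q : ℕ}
    (lab : Fin d ⊕ E → ZMod q) {x y : ι → ∀ v, A v} (h : Inv g ℓ ε K x y)
    (u : ι → ZMod s × ZMod q) (a b : ι) :
    (gr hg ℓ 0 lab).Adj (x a, u a) (x b, u b) ↔ (gr hg ℓ ε lab).Adj (y a, u a) (y b, u b) := by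
  have h1 : x a = x b ↔ y a = y b := by
    obtain ⟨s, h1, h2⟩ := h
    exact h2.eq_iff' a b
  have h2 : ∀ r, Rel σ ℓ 0 r (x a - x b) ↔ Rel σ ℓ ε r (y a - y b) := fun r => h.rel_iff hg hK a b r
  simp only [gr, Conn, Prod.mk.injEq, ne_eq, Prod.fst_sub, Prod.snd_sub, sub_eq_zero, h1, h2]

lemma Inv.eq_iff {K : ℕ} {ι W : Type} [Fintype ι] {x y : ι → ∀ v, A v}
    (h : Inv g ℓ ε K x y) (u : ι → W) (a b : ι) :
    (x a, u a) = (x b, u b) ↔ (y a, u a) = (y b, u b) := by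
  obtain ⟨s, h1, h2⟩ := h
  simp only [Prod.mk.injEq, h2.eq_iff' a b]

/-- placing a pebble -/
theorem Inv.step [∀ v, Finite (A v)] {K : ℕ} (hE : Expand ℓ K) {ι : Type} [Fintype ι]
    [DecidableEq ι] (hk : d * Fintype.card ι ≤ K) {x y : ι → ∀ v, A v}
    (h : Inv g ℓ ε K x y) :
    ∃ e : (∀ v, A v) ≃ (∀ v, A v), ∀ z, Inv g ℓ ε K (ext x z) (ext y (e z)) := by
  obtain ⟨s, h1, h2⟩ := h
  have h3 : ∀ V' : Finset (Fin d × Fin M), ∃ t : Fin d × Fin M → ZMod 2,
      seen x ⊆ V' → V'.card ≤ d * Fintype.card ι →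
        (∀ w ∈ seen x, t w = s w) ∧ Good ℓ ε K V' t := by
    intro V'
    by_cases hV : seen x ⊆ V' ∧ V'.card ≤ d * Fintype.card ι
    · obtain ⟨t, ht⟩ := good_ext hE hV.1 (hV.2.trans hk) h1
      exact ⟨t, fun _ _ => ht⟩
    · exact ⟨s, fun h4 h5 => absurd ⟨h4, h5⟩ hV⟩
  choose T hT using h3
  have h4 : ∀ z : ∀ v, A v, seen x ⊆ seen (ext x z) := by
    intro z
    exact seen_comp (ext x z) some
  have h5 : ∀ z : ∀ v, A v, (seen (ext x z)).card ≤ d * Fintype.card ι := by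
    intro z
    have := card_seen (ext x z)
    rwa [Fintype.card_option, Nat.add_sub_cancel] at this
  obtain ⟨e, he⟩ := exists_equiv h2 T fun z v hv => ((hT _ (h4 z) (h5 z)).1 v hv).symm
  exact ⟨e, fun z => ⟨_, (hT _ (h4 z) (h5 z)).2, he z⟩⟩

/-- the first configuration -/
theorem Inv.start [∀ v, Finite (A v)] {K : ℕ} (hE : Expand ℓ K) {ι : Type} [Fintype ι]
    (hk : d * Fintype.card ι ≤ K) :
    ∃ F : (ι → ∀ v, A v) ≃ (ι → ∀ v, A v), ∀ x, Inv g ℓ ε K x (F x) := by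
  have h3 : ∀ V' : Finset (Fin d × Fin M), ∃ t : Fin d × Fin M → ZMod 2,
      V'.card ≤ d * Fintype.card ι → Good ℓ ε K V' t := by
    intro V'
    by_cases hV : V'.card ≤ d * Fintype.card ι
    · obtain ⟨t, ht⟩ := good_ext hE (Finset.empty_subset V') (hV.trans hk)
        (good_empty (ε := ε) hE 0)
      exact ⟨t, fun _ => ht.2⟩
    · exact ⟨0, fun h5 => absurd h5 hV⟩
  choose T hT using h3
  have hc : ∀ x : ι → ∀ v, A v, Cmp g (T (seen x)) x
      (fun a v => CircWL.gs g (T (seen x) v) v (x a v)) := by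
    intro x a b v _
    simp only [map_sub]
  have hinj : Function.Injective fun (x : ι → ∀ v, A v) a v =>
      CircWL.gs g (T (seen x) v) v (x a v) := by
    intro x x' hxx
    simp only at hxx
    have h6 : seen x = seen x' := by
      rw [← (hc x).seen_eq, ← (hc x').seen_eq, hxx]
    rw [h6] at hxx
    funext a v
    exact (CircWL.gs g (T (seen x') v) v).injective (congrFun (congrFun hxx a) v)
  have hle : ∀ x : ι → ∀ v, A v, (seen x).card ≤ d * Fintype.card ι := fun x =>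
    (card_seen x).trans (Nat.mul_le_mul_left _ (Nat.sub_le _ _))
  exact ⟨Equiv.ofBijective _ (Finite.injective_iff_bijective.1 hinj), fun x =>
    ⟨T (seen x), hT _ (hle x), hc x⟩⟩

/-- the graph blown up along `ρ` -/
def bl {s q : ℕ} {W : Type} (ρ : W → ZMod s × ZMod q)
    (X : SimpleGraph ((∀ v, A v) × ZMod s × ZMod q)) : SimpleGraph ((∀ v, A v) × W) where
  Adj a b := X.Adj (a.1, ρ a.2) (b.1, ρ b.2)
  symm := ⟨fun _ _ h => h.symm⟩
  loopless := ⟨fun _ h => X.irrefl h⟩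

open SRGWL in
theorem Inv.col_eq [∀ v, Finite (A v)] [Fintype (∀ v, A v)] (hg : Twist g σ) {K : ℕ}
    (hK : 1 ≤ K) (hE : Expand ℓ K) {s q : ℕ} (lab : Fin d ⊕ E → ZMod q)
    {W : Type} [Fintype W] (ρ : W → ZMod s × ZMod q)
    {k : ℕ} (hk : d * k ≤ K) (r : ℕ) :
    ∀ (x y : Fin k → ∀ v, A v) (u : Fin k → W), Inv g ℓ ε K x y →
      col (bl ρ (gr hg ℓ 0 lab)) k r (fun i => (x i, u i)) = col (bl ρ (gr hg ℓ ε lab)) k r
        (fun i => (y i, u i)) := by
  induction r with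
  | zero =>
    intro x y u h
    refine Prod.ext ?_ ?_
    · funext i j
      exact propext (h.eq_iff u i j)
    · funext i j
      exact propext (h.adj_iff hg hK lab (fun i => ρ (u i)) i j)
  | succ r ih =>
    intro x y u h
    refine Prod.ext (ih x y u h) ?_
    obtain ⟨e, he⟩ := h.step hE (by simpa using hk)
    change Multiset.map _ _ = Multiset.map _ _
    have h2 : (Finset.univ : Finset ((∀ v, A v) × W)).val =
        (Finset.univ : Finset ((∀ v, A v) × W)).val.map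
          (Equiv.prodCongr e (Equiv.refl _)) := by
      have h3 := congrArg Finset.val (Finset.map_univ_equiv
        (Equiv.prodCongr e (Equiv.refl W)))
      rw [Finset.map_val] at h3
      exact h3.symm
    conv_rhs => rw [h2, Multiset.map_map]
    apply Multiset.map_congr rfl
    rintro ⟨z, w⟩ _
    funext i
    simp only [Function.comp_apply, Equiv.prodCongr_apply, Prod.map_apply, Equiv.coe_refl, id_eq]
    have h4 := (he z).comp (fun j : Fin k => if j = i then none else some j)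
    have e1 : ∀ (x : Fin k → ∀ v, A v) (z : ∀ v, A v),
        Function.update (fun i => (x i, u i)) i (z, w) = fun j =>
          ((ext x z ∘ fun j : Fin k => if j = i then none else some j) j,
            Function.update u i w j) := by
      intro x z
      funext j
      by_cases hj : j = i
      · subst hj
        simp [ext]
      · simp [ext, hj]
    rw [e1, e1]
    exact ih _ _ _ h4

open SRGWL in
/-- `k`-dimensional Weisfeiler-Leman does not distinguish the graphs of the homogeneous and of the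
inhomogeneous system. -/
theorem wlEquiv [∀ v, Finite (A v)] [Fintype (∀ v, A v)] (hg : Twist g σ) {K : ℕ}
    (hK : 1 ≤ K) (hE : Expand ℓ K) {s q : ℕ} (lab : Fin d ⊕ E → ZMod q)
    {W : Type} [Fintype W] (ρ : W → ZMod s × ZMod q) {k : ℕ} (hk : d * k ≤ K) :
    WLEquiv k (bl ρ (gr hg ℓ 0 lab)) (bl ρ (gr hg ℓ ε lab)) := by
  classical
  intro r
  obtain ⟨F, hF⟩ := Inv.start (g := g) (ε := ε) hE (ι := Fin k) (by
    rwa [Fintype.card_fin])
  let e : (Fin k → (∀ v, A v) × W) ≃ (Fin k → (∀ v, A v) × W) :=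
    (Equiv.arrowProdEquivProdArrow _ (fun _ => ∀ v, A v) (fun _ => W)).trans
      ((Equiv.prodCongr F (Equiv.refl _)).trans
        (Equiv.arrowProdEquivProdArrow _ (fun _ => ∀ v, A v) (fun _ => W)).symm)
  have h2 : (Finset.univ : Finset (Fin k → (∀ v, A v) × W)).val =
      (Finset.univ : Finset (Fin k → (∀ v, A v) × W)).val.map e := by
    have h3 := congrArg Finset.val (Finset.map_univ_equiv e)
    rw [Finset.map_val] at h3
    exact h3.symm
  conv_rhs => rw [h2, Multiset.map_map]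
  apply Multiset.map_congr rfl
  intro t _
  exact Inv.col_eq hg hK hE lab ρ hk r (fun i => (t i).1)
    (F fun i => (t i).1) (fun i => (t i).2) (hF _)

end Pool.Agent.CircWL
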