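import Mathlib
import Pool.Agent.CircWL.Game

/-!
# An isomorphism of the two graphs gives a solution of the linear system
-/

set_option linter.unusedSectionVars false

open Finset

namespace Pool.Agent.CircWL

variable {d M : ℕ} {A : Fin d × Fin M → Type} [∀ v, AddCommGroup (A v)] {E : Type}
variable {g : ∀ v, A v ≃+ A v} {σ : ∀ v, A v → ZMod 2} {ℓ : E → Fin d → Fin M} {ε : E → ZMod 2}

/-! ### Maps that preserve the relations -/

lemma indep [∀ v, DecidableEq (A v)] {φ : (∀ v, A v) → ∀ v, A v}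
    (hφ : ∀ r x y, Rel σ ℓ 0 r (y - x) → Rel σ ℓ ε r (φ y - φ x)) (i : Fin d) (x y : ∀ v, A v)
    (h : ∀ v, v.1 = i → x v = y v) : ∀ v, v.1 = i → φ x v = φ y v := by
  have key : ∀ D : Finset (Fin d), i ∉ D → ∀ v, v.1 = i →
      φ (fun v => if v.1 ∈ D then y v else x v) v = φ x v := by
    intro D
    induction D using Finset.induction_on with
    | empty => intro _ v _; simp
    | insert j D hj ih =>
      intro hi v hv
      have hij : i ≠ j := fun h => hi (by rw [h]; exact Finset.mem_insert_self _ _)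
      rw [← ih (fun h => hi (Finset.mem_insert_of_mem h)) v hv]
      by_cases h1 : (fun v => if v.1 ∈ insert j D then y v else x v) =
          (fun v : Fin d × Fin M => if v.1 ∈ D then y v else x v)
      · rw [h1]
      · have h2 := hφ (Sum.inl j) (fun v : Fin d × Fin M => if v.1 ∈ D then y v else x v)
          (fun v => if v.1 ∈ insert j D then y v else x v) ⟨sub_ne_zero.2 h1, fun w hw => by
            simp [hw]⟩
        have h3 := h2.2 v (by rw [hv]; exact hij)
        rw [Pi.sub_apply, sub_eq_zero] at h3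
        exact h3
  intro v hv
  rw [← key (Finset.univ.erase i) (by simp) v hv]
  congr 1
  funext w
  by_cases hw : w.1 = i
  · simp [hw, h w hw]
  · simp [hw]

theorem solution_of_map [∀ v, DecidableEq (A v)] (a : ∀ v, A v) (ha : ∀ v, a v ≠ 0)
    (ha' : ∀ v, σ v (a v) = 0) {φ : (∀ v, A v) → ∀ v, A v}
    (hφ : ∀ r x y, Rel σ ℓ 0 r (y - x) → Rel σ ℓ ε r (φ y - φ x)) :
    ∃ s : Fin d × Fin M → ZMod 2, ∀ e, ∑ i, s (i, ℓ e i) = ε e := by
  refine ⟨fun v => σ v (φ (Pi.single v (a v)) v - φ 0 v), fun e => ?_⟩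
  have h1 := hφ (Sum.inr e) 0 (fun v => if v.2 = ℓ e v.1 then a v else 0) (by
    rw [sub_zero]
    refine ⟨fun i l' hl => ?_, fun i => ?_, ?_⟩
    · simp only
      rw [if_neg (ne_of_gt hl)]
    · simp only [if_true]
      exact ha _
    · simp only [if_true, Pi.zero_apply]
      exact Finset.sum_eq_zero fun i _ => ha' _)
  have h2 := h1.2.2
  rw [← h2]
  apply Finset.sum_congr rfl
  intro i _
  simp only
  rw [Pi.sub_apply]
  congr 2
  refine indep hφ i _ _ ?_ (i, ℓ e i) rfl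
  rintro ⟨i', l⟩ hv
  simp only at hv
  subst hv
  by_cases hl : l = ℓ e i'
  · subst hl
    simp
  · rw [Pi.single_eq_of_ne (by intro h; exact hl (Prod.ext_iff.1 h).2)]
    simp [hl]

/-! ### Adjacency -/

variable {s q : ℕ} {lab : Fin d ⊕ E → ZMod q}

/-- the assumptions on the labels -/
structure Lab (lab : Fin d ⊕ E → ZMod q) : Prop where
  ne_zero : ∀ r, lab r ≠ 0
  ne_one : ∀ r, lab r ≠ 1
  ne_neg_one : ∀ r, lab r ≠ -1
  inj : ∀ r r', lab r = lab r' → r = r'
  inj_neg : ∀ r r', lab r = - lab r' → r = r'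

lemma Lab.ne_zero' (h : Lab lab) {r : Fin d ⊕ E} {t : ZMod q} (ht : t = lab r ∨ t = - lab r) :
    t ≠ 0 := by
  rcases ht with ht | ht
  · rw [ht]; exact h.ne_zero r
  · rw [ht]; exact neg_ne_zero.2 (h.ne_zero r)

lemma Lab.ne_one' (h : Lab lab) {r : Fin d ⊕ E} {t : ZMod q} (ht : t = lab r ∨ t = - lab r) :
    ¬ (t = 1 ∨ t = -1) := by
  rcases ht with ht | ht <;> rw [ht]
  · rintro (h1 | h1)
    · exact h.ne_one r h1
    · exact h.ne_neg_one r h1
  · rintro (h1 | h1)
    · exact h.ne_neg_one r (by rw [← h1, neg_neg])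
    · exact h.ne_one r (neg_injective h1)

lemma Lab.uniq (h : Lab lab) {r r' : Fin d ⊕ E} {t : ZMod q} (ht : t = lab r ∨ t = - lab r)
    (ht' : t = lab r' ∨ t = - lab r') : r = r' := by
  rcases ht with ht | ht <;> rcases ht' with ht' | ht'
  · exact h.inj _ _ (ht.symm.trans ht')
  · exact h.inj_neg _ _ (ht.symm.trans ht')
  · exact h.inj_neg _ _ (by rw [← ht', ht, neg_neg])
  · exact h.inj _ _ (neg_injective (ht.symm.trans ht'))

lemma adj_same (hg : Twist g σ) {a b : (∀ v, A v) × ZMod s × ZMod q} (hab : a ≠ b)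
    (h : a.2.2 = b.2.2) : (gr hg ℓ ε lab).Adj a b := by
  refine ⟨hab, Or.inl ⟨by rw [Prod.snd_sub, Prod.snd_sub, h, sub_self], ?_⟩⟩
  by_contra hcon
  rw [not_or, not_not, not_not, Prod.fst_sub, Prod.snd_sub, Prod.fst_sub, sub_eq_zero,
    sub_eq_zero] at hcon
  exact hab (Prod.ext hcon.1 (Prod.ext hcon.2 h))

lemma adj_snd (hg : Twist g σ) {a b : (∀ v, A v) × ZMod s × ZMod q} (hab : a.2.2 ≠ b.2.2)
    (h : (gr hg ℓ ε lab).Adj a b) : a.2.1 = b.2.1 := by
  rcases h.2 with ⟨h1, h2⟩ | ⟨h1, h2, h3⟩ | ⟨r, h1, h2, h3⟩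
  · rw [Prod.snd_sub, Prod.snd_sub, sub_eq_zero] at h1
    exact absurd h1 hab
  · rwa [Prod.snd_sub, Prod.fst_sub, sub_eq_zero] at h3
  · rwa [Prod.snd_sub, Prod.fst_sub, sub_eq_zero] at h2

lemma adj_one (hg : Twist g σ) (hl : Lab lab) (h10 : (1 : ZMod q) ≠ 0)
    {a b : (∀ v, A v) × ZMod s × ZMod q}
    (hab : a.2.2 - b.2.2 = 1 ∨ a.2.2 - b.2.2 = -1) :
    (gr hg ℓ ε lab).Adj a b ↔ a.1 = b.1 ∧ a.2.1 = b.2.1 := by
  have h0 : a.2.2 - b.2.2 ≠ 0 := by
    rcases hab with h | h <;> rw [h]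
    · exact h10
    · exact neg_ne_zero.2 h10
  constructor
  · intro h
    rcases h.2 with ⟨h1, h2⟩ | ⟨h1, h2, h3⟩ | ⟨r, h1, h2, h3⟩
    · exact absurd h1 h0
    · exact ⟨sub_eq_zero.1 h2, sub_eq_zero.1 h3⟩
    · exact absurd hab (hl.ne_one' h1)
  · rintro ⟨h1, h2⟩
    refine ⟨fun h => h0 (by rw [h, sub_self]), Or.inr (Or.inl ⟨hab, ?_, ?_⟩)⟩
    · rw [Prod.fst_sub, h1, sub_self]
    · rw [Prod.snd_sub, Prod.fst_sub, h2, sub_self]

lemma adj_lab (hg : Twist g σ) (hl : Lab lab) {a b : (∀ v, A v) × ZMod s × ZMod q}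
    {r : Fin d ⊕ E} (hab : a.2.2 - b.2.2 = lab r ∨ a.2.2 - b.2.2 = - lab r) :
    (gr hg ℓ ε lab).Adj a b ↔ a.2.1 = b.2.1 ∧ Rel σ ℓ ε r (a.1 - b.1) := by
  have h0 : a.2.2 - b.2.2 ≠ 0 := hl.ne_zero' hab
  constructor
  · intro h
    rcases h.2 with ⟨h1, h2⟩ | ⟨h1, h2, h3⟩ | ⟨r', h1, h2, h3⟩
    · exact absurd h1 h0
    · exact absurd h1 (hl.ne_one' hab)
    · rw [hl.uniq hab h1]
      exact ⟨sub_eq_zero.1 h2, h3⟩
  · rintro ⟨h1, h2⟩
    refine ⟨fun h => h0 (by rw [h, sub_self]), Or.inr (Or.inr ⟨r, hab, ?_, h2⟩)⟩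
    rw [Prod.snd_sub, Prod.fst_sub, h1, sub_self]

/-- two neighbours in the same fibre -/
lemma adj_two (hg : Twist g σ) (hd : 0 < d) (hodd : ∀ v (x : A v), x + x = 0 → x = 0)
    {a b : (∀ v, A v) × ZMod s × ZMod q} (h0 : a.2.2 ≠ b.2.2)
    (h1 : ¬ (a.2.2 - b.2.2 = 1 ∨ a.2.2 - b.2.2 = -1)) (h : (gr hg ℓ ε lab).Adj a b) :
    ∃ c, (gr hg ℓ ε lab).Adj a c ∧ c.2.2 = b.2.2 ∧ c ≠ b := by
  rcases h.2 with ⟨h2, h3⟩ | ⟨h2, h3, h4⟩ | ⟨r, h2, h3, h4⟩
  · exact absurd (sub_eq_zero.1 h2) h0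
  · exact absurd h2 h1
  · refine ⟨(a.1 + a.1 - b.1, b.2), ⟨fun h => h0 (by rw [h]), Or.inr (Or.inr ⟨r, h2, h3, ?_⟩)⟩, rfl,
      fun h => ?_⟩
    · have h5 : (a - (a.1 + a.1 - b.1, b.2)).1 = - (a - b).1 := by
        simp only [Prod.fst_sub]
        abel
      rw [h5]
      exact h4.neg hg
    · have h5 := congrArg Prod.fst h
      simp only at h5
      apply h4.ne_zero hd
      funext v
      apply hodd
      have h6 := congrFun h5 v
      simp only [Pi.sub_apply, Pi.add_apply] at h6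
      simp only [Prod.fst_sub, Pi.sub_apply]
      have h7 : a.1 v - b.1 v + (a.1 v - b.1 v) = (a.1 v + a.1 v - b.1 v) - b.1 v := by abel
      rw [h7, h6, sub_self]

/-! ### Fibres -/

/-- common neighbours -/
noncomputable def cn {V : Type} [Fintype V] (X : SimpleGraph V) (a b : V) : Finset V := by
  classical
  exact Finset.univ.filter fun w => X.Adj a w ∧ X.Adj b w

lemma mem_cn {V : Type} [Fintype V] {X : SimpleGraph V} {a b w : V} :
    w ∈ cn X a b ↔ X.Adj a w ∧ X.Adj b w := by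
  classical
  simp [cn]

lemma card_cn {V W : Type} [Fintype V] [Fintype W] {X : SimpleGraph V} {Y : SimpleGraph W}
    (f : X ≃g Y) (a b : V) : (cn Y (f a) (f b)).card = (cn X a b).card := by
  symm
  apply Finset.card_bij (fun w _ => f w)
  · intro w hw
    rw [mem_cn] at hw ⊢
    exact ⟨f.map_adj_iff.2 hw.1, f.map_adj_iff.2 hw.2⟩
  · intro w _ w' _ h
    exact f.injective h
  · intro w hw
    refine ⟨f.symm w, ?_, f.apply_symm_apply w⟩
    rw [mem_cn] at hw ⊢
    rw [← f.map_adj_iff, ← f.map_adj_iff (v := b), f.apply_symm_apply]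
    exact hw

/-- the distances of fibres with an edge between them -/
noncomputable def dist [Fintype E] (lab : Fin d ⊕ E → ZMod q) : Finset (ZMod q) := by
  classical
  exact insert 0 (insert 1 (insert (-1) (Finset.univ.image lab ∪
    Finset.univ.image fun r => - lab r)))

lemma card_dist [Fintype E] (lab : Fin d ⊕ E → ZMod q) :
    (dist lab).card ≤ 2 * Fintype.card (Fin d ⊕ E) + 3 := by
  classical
  unfold dist
  refine (Finset.card_insert_le _ _).trans ?_
  have h1 := Finset.card_insert_le (1 : ZMod q) (insert (-1) (Finset.univ.image lab ∪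
    Finset.univ.image fun r => - lab r))
  have h2 := Finset.card_insert_le (-1 : ZMod q) (Finset.univ.image lab ∪
    Finset.univ.image fun r => - lab r)
  have h3 := Finset.card_union_le (Finset.univ.image lab) (Finset.univ.image fun r => - lab r)
  have h4 := Finset.card_image_le (s := (Finset.univ : Finset (Fin d ⊕ E))) (f := lab)
  have h5 := Finset.card_image_le (s := (Finset.univ : Finset (Fin d ⊕ E))) (f := fun r => - lab r)
  rw [Finset.card_univ] at h4 h5
  omega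

lemma adj_dist [Fintype E] (hg : Twist g σ) {a b : (∀ v, A v) × ZMod s × ZMod q}
    (h : (gr hg ℓ ε lab).Adj a b) : a.2.2 - b.2.2 ∈ dist lab := by
  classical
  unfold dist
  simp only [Finset.mem_insert, Finset.mem_union, Finset.mem_image, Finset.mem_univ, true_and]
  rcases h.2 with ⟨h1, _⟩ | ⟨h1, _, _⟩ | ⟨r, h1, _, _⟩
  · exact Or.inl h1
  · rcases h1 with h1 | h1
    · exact Or.inr (Or.inl h1)
    · exact Or.inr (Or.inr (Or.inl h1))
  · rcases h1 with h1 | h1
    · exact Or.inr (Or.inr (Or.inr (Or.inl ⟨r, h1.symm⟩)))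
    · exact Or.inr (Or.inr (Or.inr (Or.inr ⟨r, h1.symm⟩)))

lemma same_iff [Fintype E] [Fintype (∀ v, A v)] [NeZero s] [NeZero q] (hg : Twist g σ)
    (hs : 2 * Fintype.card (Fin d ⊕ E) + 6 ≤ s)
    (a b : (∀ v, A v) × ZMod s × ZMod q) :
    a.2.2 = b.2.2 ↔ Fintype.card (∀ v, A v) * (2 * Fintype.card (Fin d ⊕ E) + 3) <
      (cn (gr hg ℓ ε lab) a b).card := by
  classical
  constructor
  · intro h
    have h1 : ((Finset.univ : Finset ((∀ v, A v) × ZMod s)).image
        (fun p : (∀ v, A v) × ZMod s => (p.1, p.2, a.2.2))) \ {a, b} ⊆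
          cn (gr hg ℓ ε lab) a b := by
      intro w hw
      rw [Finset.mem_sdiff, Finset.mem_image, Finset.mem_insert, Finset.mem_singleton,
        not_or] at hw
      obtain ⟨⟨p, _, hp⟩, h2, h3⟩ := hw
      have h4 : w.2.2 = a.2.2 := by rw [← hp]
      rw [mem_cn]
      exact ⟨adj_same hg (Ne.symm h2) h4.symm, adj_same hg (Ne.symm h3) (h4.trans h).symm⟩
    have h2 : ((Finset.univ : Finset ((∀ v, A v) × ZMod s)).image
        (fun p : (∀ v, A v) × ZMod s => (p.1, p.2, a.2.2))).card =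
          Fintype.card (∀ v, A v) * s := by
      rw [Finset.card_image_of_injective, Finset.card_univ, Fintype.card_prod, ZMod.card]
      intro p p' hp
      rw [Prod.mk.injEq, Prod.mk.injEq] at hp
      exact Prod.ext hp.1 hp.2.1
    have h3 := Finset.card_le_card h1
    have h4 := Finset.le_card_sdiff ({a, b} : Finset ((∀ v, A v) × ZMod s × ZMod q))
      ((Finset.univ : Finset ((∀ v, A v) × ZMod s)).image
        (fun p : (∀ v, A v) × ZMod s => (p.1, p.2, a.2.2)))
    have h5 : ({a, b} : Finset ((∀ v, A v) × ZMod s × ZMod q)).card ≤ 2 := Finset.card_le_two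
    rw [h2] at h4
    have h6 : 0 < Fintype.card (∀ v, A v) := Fintype.card_pos
    have h7 : Fintype.card (∀ v, A v) * (2 * Fintype.card (Fin d ⊕ E) + 3 + 3) ≤
        Fintype.card (∀ v, A v) * s := Nat.mul_le_mul_left _ hs
    rw [Nat.mul_add] at h7
    omega
  · intro h
    by_contra hne
    apply absurd h
    rw [not_lt]
    have aux : ∀ w ∈ cn (gr hg ℓ ε lab) a b,
        w.2.1 = if w.2.2 = a.2.2 then b.2.1 else a.2.1 := by
      intro w hw
      rw [mem_cn] at hw
      split_ifs with h2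
      · exact (adj_snd hg (by rw [h2]; exact Ne.symm hne) hw.2).symm
      · exact (adj_snd hg (Ne.symm h2) hw.1).symm
    have h1 : (cn (gr hg ℓ ε lab) a b).card ≤
        ((Finset.univ : Finset (∀ v, A v)) ×ˢ dist lab).card := by
      apply Finset.card_le_card_of_injOn
        (fun w : (∀ v, A v) × ZMod s × ZMod q => (w.1, a.2.2 - w.2.2))
      · intro w hw
        rw [Finset.mem_coe, mem_cn] at hw
        rw [Finset.mem_coe, Finset.mem_product]
        exact ⟨Finset.mem_univ _, adj_dist hg hw.1⟩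
      · intro w hw w' hw' hww
        rw [Prod.mk.injEq] at hww
        have h2 : w.2.2 = w'.2.2 := sub_right_injective hww.2
        have h3 := aux w hw
        have h4 := aux w' hw'
        rw [← h2, ← h3] at h4
        exact Prod.ext hww.1 (Prod.ext h4.symm h2)
    rw [Finset.card_product, Finset.card_univ] at h1
    exact h1.trans (Nat.mul_le_mul_left _ (card_dist lab))

/-- **An isomorphism gives a solution.** -/
theorem solution_of_iso [Fintype E] [Fintype (∀ v, A v)] [NeZero s] [NeZero q] (hg : Twist g σ)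
    (hd : 0 < d) (hodd : ∀ v (x : A v), x + x = 0 → x = 0) (a : ∀ v, A v) (ha : ∀ v, a v ≠ 0)
    (ha' : ∀ v, σ v (a v) = 0) (hs : 2 * Fintype.card (Fin d ⊕ E) + 6 ≤ s) (hl : Lab lab) (h10 : (1 : ZMod q) ≠ 0)
    (h20 : (2 : ZMod q) ≠ 0) (f : gr (s := s) hg ℓ 0 lab ≃g gr (s := s) hg ℓ ε lab) :
    ∃ t : Fin d × Fin M → ZMod 2, ∀ e, ∑ i, t (i, ℓ e i) = ε e := by
  classical
  have hf : ∀ a b : (∀ v, A v) × ZMod s × ZMod q, (f a).2.2 = (f b).2.2 ↔ a.2.2 = b.2.2 := by
    intro a b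
    rw [same_iff hg hs (ℓ := ℓ) (ε := ε) (lab := lab), card_cn f a b,
      ← same_iff hg hs (ℓ := ℓ) (ε := 0) (lab := lab)]
  obtain ⟨π, hπ⟩ : ∃ π : ZMod q → ZMod q, ∀ a, (f a).2.2 = π a.2.2 :=
    ⟨fun j => (f (0, 0, j)).2.2, fun a => (hf _ _).2 rfl⟩
  have hπi : Function.Injective π := by
    intro j j' h
    have h1 := (hf (0, 0, j) (0, 0, j')).1 (by rw [hπ, hπ]; exact h)
    exact h1
  have hstep : ∀ (x : ∀ v, A v) (u : ZMod s) (j : ZMod q),
      (π j - π (j + 1) = 1 ∨ π j - π (j + 1) = -1) ∧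
        (f (x, u, j)).1 = (f (x, u, j + 1)).1 ∧ (f (x, u, j)).2.1 = (f (x, u, j + 1)).2.1 := by
    intro x u j
    have h1 : (gr (s := s) hg ℓ 0 lab).Adj (x, u, j) (x, u, j + 1) :=
      (adj_one hg hl h10 (by right; simp)).2 ⟨rfl, rfl⟩
    have h2 : (gr (s := s) hg ℓ ε lab).Adj (f (x, u, j)) (f (x, u, j + 1)) := f.map_adj_iff.2 h1
    have h3 : (f (x, u, j)).2.2 = π j := hπ _
    have h4 : (f (x, u, j + 1)).2.2 = π (j + 1) := hπ _
    have h5 : π j ≠ π (j + 1) := fun h => h10 (by simpa using hπi h)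
    have h6 : π j - π (j + 1) = 1 ∨ π j - π (j + 1) = -1 := by
      by_contra hcon
      obtain ⟨c, hc1, hc2, hc3⟩ := adj_two hg hd hodd (by rw [h3, h4]; exact h5)
        (by rw [h3, h4]; exact hcon) h2
      have h7 : (gr (s := s) hg ℓ 0 lab).Adj (x, u, j) (f.symm c) := by
        rw [← f.map_adj_iff, f.apply_symm_apply]
        exact hc1
      have h8 : (f.symm c).2.2 = j + 1 := by
        apply hπi
        rw [← hπ, f.apply_symm_apply, hc2, h4]
      have h9 := (adj_one hg hl h10 (by right; rw [h8]; simp)).1 h7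
      apply hc3
      rw [← f.apply_symm_apply c]
      congr 1
      exact Prod.ext h9.1.symm (Prod.ext h9.2.symm h8)
    refine ⟨h6, ?_⟩
    exact (adj_one hg hl h10 (by rw [h3, h4]; exact h6)).1 h2
  obtain ⟨c, hc, hc'⟩ : ∃ c : ZMod q, (c = 1 ∨ c = -1) ∧ π 0 - π (0 + 1) = c :=
    ⟨_, (hstep 0 0 0).1, rfl⟩
  have hπc : ∀ n : ℕ, π (n : ZMod q) - π ((n : ZMod q) + 1) = c := by
    intro n
    induction n with
    | zero => simpa using hc'
    | succ n ih =>
      have h1 := (hstep 0 0 ((n : ZMod q) + 1)).1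
      rw [Nat.cast_succ]
      by_contra hne
      have h2 : π ((n : ZMod q) + 1) - π ((n : ZMod q) + 1 + 1) = - c := by
        rcases hc with hc | hc <;> rcases h1 with h1 | h1
        · exact absurd (h1.trans hc.symm) hne
        · rw [h1, hc]
        · rw [h1, hc, neg_neg]
        · exact absurd (h1.trans hc.symm) hne
      have h3 : π (n : ZMod q) = π ((n : ZMod q) + 1 + 1) := by
        linear_combination ih + h2
      have h4 := hπi h3
      apply h20
      have h5 : (n : ZMod q) + 1 + 1 = n + 2 := by ring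
      rw [h5] at h4
      simpa using h4
  have hπn : ∀ n : ℕ, π (n : ZMod q) - π 0 = - (c * n) := by
    intro n
    induction n with
    | zero => simp
    | succ n ih =>
      rw [Nat.cast_succ]
      linear_combination ih - hπc n
  have hfn : ∀ (x : ∀ v, A v) (u : ZMod s) (n : ℕ), (f (x, u, (n : ZMod q))).1 = (f (x, u, 0)).1 := by
    intro x u n
    induction n with
    | zero => simp
    | succ n ih =>
      rw [Nat.cast_succ, ← (hstep x u n).2.1]
      exact ih
  refine solution_of_map a ha ha' (φ := fun x => (f (x, 0, 0)).1) fun r x y h => ?_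
  have h1 : (gr (s := s) hg ℓ 0 lab).Adj (y, 0, lab r) (x, 0, 0) :=
    (adj_lab hg hl (r := r) (by left; simp)).2 ⟨rfl, h⟩
  have h2 : (gr (s := s) hg ℓ ε lab).Adj (f (y, 0, lab r)) (f (x, 0, 0)) := f.map_adj_iff.2 h1
  have h3 : (((lab r).val : ℕ) : ZMod q) = lab r := ZMod.natCast_zmod_val _
  have h4 := hπn (lab r).val
  have h5 := hfn y 0 (lab r).val
  rw [h3] at h4 h5
  have h6 := ((adj_lab hg hl (r := r) (by
    rw [hπ, hπ]
    change π (lab r) - π 0 = _ ∨ π (lab r) - π 0 = _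
    rw [h4]
    rcases hc with hc | hc <;> rw [hc]
    · right; ring
    · left; ring)).1 h2).2
  rw [h5] at h6
  exact h6

/-! ### Blow-ups -/

/-- no twins -/
theorem twinfree [Fintype E] [Fintype (∀ v, A v)] [NeZero s] [NeZero q] (hg : Twist g σ)
    (hs : 2 * Fintype.card (Fin d ⊕ E) + 6 ≤ s) (a b : (∀ v, A v) × ZMod s × ZMod q)
    (h : ∀ c, (gr (s := s) hg ℓ ε lab).Adj a c ↔ (gr (s := s) hg ℓ ε lab).Adj b c) : a = b := by
  by_contra hab
  have h1 : cn (gr (s := s) hg ℓ ε lab) a b = cn (gr (s := s) hg ℓ ε lab) a a := by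
    ext c
    rw [mem_cn, mem_cn, ← h c]
  have h2 : a.2.2 = b.2.2 := by
    rw [same_iff hg hs (ℓ := ℓ) (ε := ε) (lab := lab), h1,
      ← same_iff hg hs (ℓ := ℓ) (ε := ε) (lab := lab)]
  exact (gr (s := s) hg ℓ ε lab).irrefl ((h b).1 (adj_same hg hab h2))

/-- An isomorphism of blow-ups of graphs without twins gives an isomorphism of the graphs. -/
theorem iso_of_blowup {V Q : Type} [Finite Q] {X Y : SimpleGraph Q} {X' Y' : SimpleGraph V}
    (π : V → Q) (hπ : Function.Surjective π) (hX : ∀ a b, X'.Adj a b ↔ X.Adj (π a) (π b))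
    (hY : ∀ a b, Y'.Adj a b ↔ Y.Adj (π a) (π b))
    (ht : ∀ a b, (∀ c, X.Adj a c ↔ X.Adj b c) → a = b) (f : X' ≃g Y') : Nonempty (X ≃g Y) := by
  let τ := Function.surjInv hπ
  have hτ : ∀ a, π (τ a) = a := Function.surjInv_eq hπ
  let F : Q → Q := fun a => π (f (τ a))
  have hF : ∀ a b, X.Adj a b ↔ Y.Adj (F a) (F b) := by
    intro a b
    rw [← hY, f.map_adj_iff, hX, hτ, hτ]
  have hinj : Function.Injective F := by
    intro a b hab
    apply ht
    intro c
    rw [hF, hF, hab]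
  exact ⟨⟨Equiv.ofBijective F (Finite.injective_iff_bijective.1 hinj), by
    intro a b
    exact (hF a b).symm⟩⟩

end Pool.Agent.CircWL
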