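import Mathlib
import Pool.Agent.CircWL.Iso
import Pool.Agent.CircWL.Expand

/-!
# From products of cyclic groups to circulant graphs
-/

set_option linter.unusedSectionVars false

open Finset

namespace Pool.Agent.CircWL

/-! ### Weisfeiler-Leman and isomorphisms -/

open SRGWL in
lemma col_iso {V W : Type} [Fintype V] [Fintype W] {X : SimpleGraph V} {Y : SimpleGraph W}
    (e : X ≃g Y) {k : ℕ} (r : ℕ) :
    ∀ s : Fin k → V, col Y k r (fun i => e (s i)) = col X k r s := by
  induction r with
  | zero =>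
    intro s
    refine Prod.ext ?_ ?_
    · funext i j
      exact propext e.injective.eq_iff
    · funext i j
      exact propext e.map_adj_iff
  | succ r ih =>
    intro s
    refine Prod.ext (ih s) ?_
    change Multiset.map _ _ = Multiset.map _ _
    have h2 : (Finset.univ : Finset W).val = (Finset.univ : Finset V).val.map e := by
      have h3 := congrArg Finset.val (Finset.map_univ_equiv e.toEquiv)
      rw [Finset.map_val] at h3
      exact h3.symm
    rw [h2, Multiset.map_map]
    apply Multiset.map_congr rfl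
    intro v _
    funext i
    rw [Function.comp_apply, ← ih]
    congr 1
    funext j
    by_cases hj : j = i
    · subst hj; simp
    · simp [hj]

open SRGWL in
lemma map_col_iso {V W : Type} [Fintype V] [Fintype W] {X : SimpleGraph V} {Y : SimpleGraph W}
    (e : X ≃g Y) (k r : ℕ) : (Finset.univ : Finset (Fin k → W)).val.map (col Y k r) =
      (Finset.univ : Finset (Fin k → V)).val.map (col X k r) := by
  have h2 : (Finset.univ : Finset (Fin k → W)).val = (Finset.univ : Finset (Fin k → V)).val.map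
      (Equiv.arrowCongr (Equiv.refl (Fin k)) e.toEquiv) := by
    have h3 := congrArg Finset.val
      (Finset.map_univ_equiv (Equiv.arrowCongr (Equiv.refl (Fin k)) e.toEquiv))
    rw [Finset.map_val] at h3
    exact h3.symm
  rw [h2, Multiset.map_map]
  apply Multiset.map_congr rfl
  intro s _
  exact col_iso e r s

open SRGWL in
lemma WLEquiv.iso {V W V' W' : Type} [Fintype V] [Fintype W] [Fintype V'] [Fintype W']
    {X : SimpleGraph V} {Y : SimpleGraph W} {X' : SimpleGraph V'} {Y' : SimpleGraph W'} {k : ℕ}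
    (h : WLEquiv k X Y) (e : X ≃g X') (f : Y ≃g Y') : WLEquiv k X' Y' := by
  intro r
  rw [map_col_iso e, map_col_iso f]
  exact h r

/-! ### The quadratic character -/

section char

variable {p : ℕ} [Fact p.Prime]

/-- `0` for squares, `1` for non-squares -/
noncomputable def sg (x : ZMod p) : ZMod 2 := by
  classical
  exact if IsSquare x then 0 else 1

lemma sg_mul (x y : ZMod p) (hx : x ≠ 0) (hy : y ≠ 0) : sg (x * y) = sg x + sg y := by
  classical
  have h1 : quadraticChar (ZMod p) (x * y) = quadraticChar (ZMod p) x * quadraticChar (ZMod p) y :=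
    map_mul _ _ _
  have hxy : x * y ≠ 0 := mul_ne_zero hx hy
  rcases quadraticChar_dichotomy hx with h2 | h2 <;> rcases quadraticChar_dichotomy hy with h3 | h3
  · have e1 := (quadraticChar_one_iff_isSquare hx).1 h2
    have e2 := (quadraticChar_one_iff_isSquare hy).1 h3
    have e3 := (quadraticChar_one_iff_isSquare hxy).1 (by rw [h1, h2, h3]; rfl)
    simp [sg, e1, e2, e3]
  · have e1 := (quadraticChar_one_iff_isSquare hx).1 h2
    have e2 : ¬ IsSquare y := fun h => by
      rw [(quadraticChar_one_iff_isSquare hy).2 h] at h3; norm_num at h3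
    have e3 : ¬ IsSquare (x * y) := fun h => by
      rw [(quadraticChar_one_iff_isSquare hxy).2 h, h2, h3] at h1; norm_num at h1
    simp [sg, e1, e2, e3]
  · have e1 : ¬ IsSquare x := fun h => by
      rw [(quadraticChar_one_iff_isSquare hx).2 h] at h2; norm_num at h2
    have e2 := (quadraticChar_one_iff_isSquare hy).1 h3
    have e3 : ¬ IsSquare (x * y) := fun h => by
      rw [(quadraticChar_one_iff_isSquare hxy).2 h, h2, h3] at h1; norm_num at h1
    simp [sg, e1, e2, e3]
  · have e1 : ¬ IsSquare x := fun h => by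
      rw [(quadraticChar_one_iff_isSquare hx).2 h] at h2; norm_num at h2
    have e2 : ¬ IsSquare y := fun h => by
      rw [(quadraticChar_one_iff_isSquare hy).2 h] at h3; norm_num at h3
    have e3 := (quadraticChar_one_iff_isSquare hxy).1 (by rw [h1, h2, h3]; norm_num)
    simp [sg, e1, e2, e3]
    decide

lemma sg_one : sg (1 : ZMod p) = 0 := by
  simp [sg]

lemma exists_nonres (hp : p ≠ 2) : ∃ a : ZMod p, a ≠ 0 ∧ sg a = 1 := by
  have h1 : ringChar (ZMod p) ≠ 2 := by rwa [ZMod.ringChar_zmod_n]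
  obtain ⟨a, ha⟩ := FiniteField.exists_nonsquare h1
  refine ⟨a, ?_, by simp [sg, ha]⟩
  rintro rfl
  exact ha (IsSquare.zero)

lemma sg_neg_one : sg (-1 : ZMod p) = if p % 4 = 3 then 1 else 0 := by
  unfold sg
  by_cases h : p % 4 = 3
  · rw [if_pos h, if_neg]
    rw [ZMod.exists_sq_eq_neg_one_iff]
    simpa using h
  · rw [if_neg h, if_pos]
    rw [ZMod.exists_sq_eq_neg_one_iff]
    exact h

/-- multiplication by a nonzero element -/
def mulEquiv (a : ZMod p) (ha : a ≠ 0) : ZMod p ≃+ ZMod p where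
  toFun x := a * x
  invFun x := a⁻¹ * x
  left_inv x := by
    change a⁻¹ * (a * x) = x
    rw [← mul_assoc, inv_mul_cancel₀ ha, one_mul]
  right_inv x := by
    change a * (a⁻¹ * x) = x
    rw [← mul_assoc, mul_inv_cancel₀ ha, one_mul]
  map_add' x y := mul_add a x y

end char

/-- the twist of the product of the groups `ZMod (p v)` -/
lemma exists_twist {d M : ℕ} (hd : Even d) (p : Fin d × Fin M → ℕ) [∀ v, Fact (p v).Prime]
    (h2 : ∀ v, p v ≠ 2) (h4 : ∀ v w, p v % 4 = p w % 4) :
    ∃ g : ∀ v, ZMod (p v) ≃+ ZMod (p v), Twist g (fun v => (sg : ZMod (p v) → ZMod 2)) := by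
  have h1 : ∀ v, ∃ a : ZMod (p v), a ≠ 0 ∧ sg a = 1 := fun v => exists_nonres (h2 v)
  choose a ha ha' using h1
  refine ⟨fun v => mulEquiv (a v) (ha v), ?_, ?_⟩
  · intro v x hx
    change sg (a v * x) = _
    rw [sg_mul _ _ (ha v) hx, ha' v, add_comm]
  · intro t z hz
    obtain ⟨c, hc⟩ : ∃ c : ZMod 2, ∀ v, sg (-1 : ZMod (p v)) = c := by
      by_cases hne : Nonempty (Fin d × Fin M)
      · obtain ⟨w⟩ := hne
        refine ⟨sg (-1 : ZMod (p w)), fun v => ?_⟩
        rw [sg_neg_one, sg_neg_one, h4 v w]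
      · exact ⟨0, fun v => absurd ⟨v⟩ hne⟩
    have h5 : ∀ i ∈ (Finset.univ : Finset (Fin d)),
        (sg (- z (i, t i)) : ZMod 2) = c + sg (z (i, t i)) := by
      intro i _
      have h6 : - z (i, t i) = -1 * z (i, t i) := by ring
      rw [h6, sg_mul _ _ (neg_ne_zero.2 one_ne_zero) (hz i), hc]
    change ∑ i, (sg (- z (i, t i)) : ZMod 2) = ∑ i, sg (z (i, t i))
    rw [Finset.sum_congr rfl h5, Finset.sum_add_distrib, Finset.sum_const, Finset.card_univ,
      Fintype.card_fin]
    obtain ⟨m, rfl⟩ := hd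
    rw [add_nsmul, z2_self, zero_add]

/-! ### Labels -/

/-- the labels -/
def lab {d N : ℕ} (q : ℕ) (r : Fin d ⊕ Fin N) : ZMod q := ((finSumFinEquiv r).val + 2 : ℕ)

lemma lab_lab {d N q : ℕ} (hq : 2 * (d + N) + 4 ≤ q) : Lab (lab q : Fin d ⊕ Fin N → ZMod q) := by
  have key : ∀ t : ℕ, 0 < t → t < q → ((t : ℕ) : ZMod q) ≠ 0 := by
    intro t ht htq h
    rw [ZMod.natCast_eq_zero_iff] at h
    exact absurd (Nat.le_of_dvd ht h) (not_le.2 htq)
  refine ⟨fun r => ?_, fun r h => ?_, fun r h => ?_, fun r r' h => ?_, fun r r' h => ?_⟩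
  · have := (finSumFinEquiv r).2
    exact key _ (by omega) (by omega)
  · have := (finSumFinEquiv r).2
    apply key ((finSumFinEquiv r).val + 1) (by omega) (by omega)
    unfold lab at h
    push_cast at h ⊢
    linear_combination h
  · have := (finSumFinEquiv r).2
    apply key ((finSumFinEquiv r).val + 3) (by omega) (by omega)
    unfold lab at h
    push_cast at h ⊢
    linear_combination h
  · have h1 := (finSumFinEquiv r).2
    have h2 := (finSumFinEquiv r').2
    unfold lab at h
    rw [ZMod.natCast_eq_natCast_iff', Nat.mod_eq_of_lt (by omega), Nat.mod_eq_of_lt (by omega)] at h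
    exact finSumFinEquiv.injective (Fin.ext (by omega))
  · exfalso
    have h1 := (finSumFinEquiv r).2
    have h2 := (finSumFinEquiv r').2
    apply key ((finSumFinEquiv r).val + 2 + ((finSumFinEquiv r').val + 2)) (by omega) (by omega)
    unfold lab at h
    push_cast at h ⊢
    linear_combination h

/-! ### Pulling back along a surjective homomorphism -/

lemma exists_split {H G U : Type} [AddCommGroup H] [Fintype H] [AddCommGroup G] [AddCommGroup U]
    (π : H →+ G × U) (hπ : Function.Surjective π) :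
    ∃ (T : Type) (_ : Fintype T) (e : H ≃ G × (U × T)), ∀ x, ((e x).1, (e x).2.1) = π x := by
  classical
  refine ⟨π.ker, Fintype.ofFinite _, ?_⟩
  let τ := Function.surjInv hπ
  have hτ : ∀ a, π (τ a) = a := Function.surjInv_eq hπ
  let e : H ≃ G × (U × π.ker) :=
    { toFun := fun x => ((π x).1, ((π x).2, ⟨x - τ (π x), by
        rw [AddMonoidHom.mem_ker, map_sub, hτ, sub_self]⟩))
      invFun := fun y => τ (y.1, y.2.1) + y.2.2
      left_inv := fun x => by
        simp
      right_inv := fun y => by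
        have h1 : π (τ (y.1, y.2.1) + y.2.2) = (y.1, y.2.1) := by
          rw [map_add, hτ, AddMonoidHom.mem_ker.1 y.2.2.2, add_zero]
        simp only [h1]
        refine Prod.ext rfl (Prod.ext rfl (Subtype.ext ?_))
        simp }
  exact ⟨e, fun x => rfl⟩

/-- pullback of the connection set -/
def pull {d M : ℕ} {A : Fin d × Fin M → Type} [∀ v, AddCommGroup (A v)] {E : Type} {s q : ℕ}
    {H : Type} [AddCommGroup H] (σ : ∀ v, A v → ZMod 2) (ℓ : E → Fin d → Fin M) (ε : E → ZMod 2)
    (lab : Fin d ⊕ E → ZMod q) (π : H →+ (∀ v, A v) × ZMod s × ZMod q) : Set H :=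
  {x | Conn σ ℓ ε lab (π x)}

lemma pull_adj {d M : ℕ} {A : Fin d × Fin M → Type} [∀ v, AddCommGroup (A v)] {E : Type} {s q : ℕ}
    {H : Type} [AddCommGroup H] {g : ∀ v, A v ≃+ A v} {σ : ∀ v, A v → ZMod 2} (hg : Twist g σ)
    (hd : 0 < d) (h10 : (1 : ZMod q) ≠ 0) (ℓ : E → Fin d → Fin M) (ε : E → ZMod 2)
    (lab : Fin d ⊕ E → ZMod q) (π : H →+ (∀ v, A v) × ZMod s × ZMod q) (a b : H) :
    (SimpleGraph.circulantGraph (pull σ ℓ ε lab π)).Adj a b ↔
      (gr hg ℓ ε lab).Adj (π a) (π b) := by
  rw [SimpleGraph.circulantGraph_adj]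
  have h1 : ∀ a b, a - b ∈ pull σ ℓ ε lab π ↔ Conn σ ℓ ε lab (π a - π b) := by
    intro a b
    change Conn σ ℓ ε lab (π (a - b)) ↔ _
    rw [map_sub]
  constructor
  · rintro ⟨hne, h2⟩
    have h3 : Conn σ ℓ ε lab (π a - π b) := by
      rcases h2 with h2 | h2
      · exact (h1 a b).1 h2
      · have h4 := conn_neg hg ((h1 b a).1 h2)
        rwa [neg_sub] at h4
    refine ⟨fun h => ?_, h3⟩
    rw [h, sub_self] at h3
    exact conn_zero hd h10 h3
  · rintro ⟨hne, h2⟩
    exact ⟨fun h => hne (by rw [h]), Or.inl ((h1 a b).2 h2)⟩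

end Pool.Agent.CircWL
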