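import Mathlib
import Pool.Agent.CircWL.Transfer

/-!
# Circulant graphs with large Weisfeiler-Leman dimension
-/

set_option linter.unusedSectionVars false

open Finset

namespace Pool.Agent.CircWL

open SRGWL in
/-- the theorem for given primes -/
theorem main_aux {k : ℕ} (hk : 1 ≤ k) (p : Fin 10 × Fin (200 * k) → ℕ) (hp : ∀ v, (p v).Prime)
    (h2 : ∀ v, p v ≠ 2) (h4 : ∀ v w, p v % 4 = p w % 4) (hcop : Pairwise (Function.onFun Nat.Coprime p))
    {s q : ℕ} (hs : 2 * (10 + (2000 * k + 1)) + 6 ≤ s) (hq : 2 * (10 + (2000 * k + 1)) + 6 ≤ q)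
    (hsq : s.Coprime q) (hpsq : (∏ v, p v).Coprime (s * q)) {n : ℕ} [NeZero n]
    (hn : (∏ v, p v) * (s * q) ∣ n) :
    ∃ S T : Set (ZMod n), IsEmpty (SimpleGraph.circulantGraph S ≃g SimpleGraph.circulantGraph T) ∧
      WLEquiv k (SimpleGraph.circulantGraph S) (SimpleGraph.circulantGraph T) := by
  classical
  have hpf : ∀ v, Fact (p v).Prime := fun v => ⟨hp v⟩
  have hs0 : NeZero s := ⟨by omega⟩
  have hq0 : NeZero q := ⟨by omega⟩
  obtain ⟨ℓ, hE⟩ := exists_expand hk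
  obtain ⟨ε, hε⟩ := exists_unsolvable (d := 10) (M := 200 * k) (N := 2000 * k + 1) (by omega) ℓ
  obtain ⟨g, hg⟩ := exists_twist (d := 10) (by decide) p h2 h4
  -- the homomorphism
  let π₁ : ZMod n →+* ZMod ((∏ v, p v) * (s * q)) := ZMod.castHom hn _
  have hπ₁ : Function.Surjective π₁ := ZMod.castHom_surjective hn
  let π₂ : ZMod ((∏ v, p v) * (s * q)) ≃+* ZMod (∏ v, p v) × ZMod (s * q) :=
    ZMod.chineseRemainder hpsq
  let π₃ : ZMod (∏ v, p v) ≃+* ∀ v, ZMod (p v) := ZMod.prodEquivPi p hcop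
  let π₄ : ZMod (s * q) ≃+* ZMod s × ZMod q := ZMod.chineseRemainder hsq
  let π₀ : ZMod ((∏ v, p v) * (s * q)) ≃+* (∀ v, ZMod (p v)) × ZMod s × ZMod q :=
    π₂.trans (RingEquiv.prodCongr π₃ π₄)
  let π : ZMod n →+ (∀ v, ZMod (p v)) × ZMod s × ZMod q :=
    ((π₀ : ZMod ((∏ v, p v) * (s * q)) →+* _).comp π₁ : ZMod n →+* _).toAddMonoidHom
  have hπ : Function.Surjective π := by
    intro y
    obtain ⟨z, hz⟩ := π₀.surjective y
    obtain ⟨x, hx⟩ := hπ₁ z
    refine ⟨x, ?_⟩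
    change π₀ (π₁ x) = y
    rw [hx, hz]
  have h10 : (1 : ZMod q) ≠ 0 := by
    intro h
    have h5 : ((1 : ℕ) : ZMod q) = 0 := by exact_mod_cast h
    rw [ZMod.natCast_eq_zero_iff] at h5
    have := Nat.le_of_dvd (by omega) h5
    omega
  have h20 : (2 : ZMod q) ≠ 0 := by
    intro h
    have h5 : ((2 : ℕ) : ZMod q) = 0 := by exact_mod_cast h
    rw [ZMod.natCast_eq_zero_iff] at h5
    have := Nat.le_of_dvd (by omega) h5
    omega
  have hl : Lab (lab q : Fin 10 ⊕ Fin (2000 * k + 1) → ZMod q) := lab_lab (by omega)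
  have hodd : ∀ v (x : ZMod (p v)), x + x = 0 → x = 0 := by
    intro v x hx
    have h5 : (2 : ZMod (p v)) ≠ 0 := by
      intro h
      have h6 : ((2 : ℕ) : ZMod (p v)) = 0 := by exact_mod_cast h
      rw [ZMod.natCast_eq_zero_iff] at h6
      exact h2 v ((Nat.prime_dvd_prime_iff_eq (hp v) Nat.prime_two).1 h6)
    have h6 : 2 * x = 0 := by rw [two_mul]; exact hx
    exact (mul_eq_zero.1 h6).resolve_left h5
  have hs' : 2 * Fintype.card (Fin 10 ⊕ Fin (2000 * k + 1)) + 6 ≤ s := by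
    rw [Fintype.card_sum, Fintype.card_fin, Fintype.card_fin]
    exact hs
  let S : (Fin (2000 * k + 1) → ZMod 2) → Set (ZMod n) := fun ε =>
    pull (fun v => (sg : ZMod (p v) → ZMod 2)) ℓ ε (lab q) π
  have hadj : ∀ ε, ∀ a b, (SimpleGraph.circulantGraph (S ε)).Adj a b ↔
      (gr (s := s) hg ℓ ε (lab q)).Adj (π a) (π b) := fun ε a b =>
    pull_adj hg (by omega) h10 ℓ ε (lab q) π a b
  refine ⟨S 0, S ε, ⟨fun f => ?_⟩, ?_⟩
  · obtain ⟨f'⟩ := iso_of_blowup π hπ (hadj 0) (hadj ε)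
      (fun a b h => twinfree hg hs' a b h) f
    exact hε (solution_of_iso hg (by omega) hodd (fun _ => 1) (fun _ => one_ne_zero)
      (fun _ => sg_one) hs' hl h10 h20 f')
  · obtain ⟨T, hT, e, he⟩ := exists_split π hπ
    have hiso : ∀ ε, Nonempty (bl (fun w : (ZMod s × ZMod q) × T => w.1)
        (gr (s := s) hg ℓ ε (lab q)) ≃g SimpleGraph.circulantGraph (S ε)) := by
      intro ε
      refine ⟨⟨e.symm, ?_⟩⟩
      intro a b
      rw [hadj, ← he, ← he, Equiv.apply_symm_apply, Equiv.apply_symm_apply]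
      exact Iff.rfl
    obtain ⟨i₀⟩ := hiso 0
    obtain ⟨i₁⟩ := hiso ε
    exact WLEquiv.iso (wlEquiv hg (by omega) hE (lab q) _ (by omega)) i₀ i₁

/-- products of many odd primes are large -/
lemma prod_large {k : ℕ} (hk : 1 ≤ k) (Q : Finset ℕ) (hQ : Q.card = 8 * k) (h : ∀ p ∈ Q, 3 ≤ p) :
    2 * (10 + (2000 * k + 1)) + 6 ≤ ∏ p ∈ Q, p := by
  have h1 : 3 ^ Q.card ≤ ∏ p ∈ Q, p := Finset.pow_card_le_prod Q _ 3 h
  refine le_trans ?_ h1
  rw [hQ, pow_mul]
  have h2 : ∀ k : ℕ, 6560 * k + 1 ≤ (3 ^ 8) ^ k := by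
    intro k
    induction k with
    | zero => simp
    | succ k ih =>
      rw [pow_succ]
      norm_num at ih ⊢
      omega
  have h3 := h2 k
  omega

open SRGWL in
/-- **Circulant graphs with large Weisfeiler-Leman dimension** -/
theorem main {k n : ℕ} (hk : 1 ≤ k) [NeZero n] (hn : 4001 * k ≤ n.primeFactors.card) :
    ∃ S T : Set (ZMod n), IsEmpty (SimpleGraph.circulantGraph S ≃g SimpleGraph.circulantGraph T) ∧
      WLEquiv k (SimpleGraph.circulantGraph S) (SimpleGraph.circulantGraph T) := by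
  set P : Finset ℕ := n.primeFactors.erase 2 with hP
  have hPc : 4000 * k ≤ P.card := by
    have h := Finset.pred_card_le_card_erase (s := n.primeFactors) (a := 2)
    rw [← hP] at h
    omega
  have hPp : ∀ p ∈ P, p.Prime := fun p hp =>
    Nat.prime_of_mem_primeFactors (Finset.mem_of_mem_erase hp)
  have hP2 : ∀ p ∈ P, p ≠ 2 := fun p hp => Finset.ne_of_mem_erase hp
  have hP3 : ∀ p ∈ P, 3 ≤ p := by
    intro p hp
    have h1 := (hPp p hp).two_le
    have h2 := hP2 p hp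
    omega
  have hsplit : (P.filter fun p => p % 4 = 1).card + (P.filter fun p => ¬ p % 4 = 1).card =
      P.card := Finset.card_filter_add_card_filter_not _
  obtain ⟨c, hc⟩ : ∃ c, 2000 * k ≤ (P.filter fun p => p % 4 = c).card := by
    rcases le_or_gt (2000 * k) (P.filter fun p => p % 4 = 1).card with h | h
    · exact ⟨1, h⟩
    · refine ⟨3, ?_⟩
      have h1 : (P.filter fun p => ¬ p % 4 = 1) ⊆ P.filter fun p => p % 4 = 3 := by
        intro p hp
        rw [Finset.mem_filter] at hp ⊢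
        refine ⟨hp.1, ?_⟩
        have h2 := (hPp p hp.1).eq_two_or_odd
        have h3 := hP2 p hp.1
        have h4 : p % 2 = 1 := by
          rcases h2 with h2 | h2
          · exact absurd h2 h3
          · exact h2
        have h5 := hp.2
        omega
      have := Finset.card_le_card h1
      omega
  obtain ⟨B, hB, hBc⟩ := Finset.exists_subset_card_eq hc
  have hBP : B ⊆ P := hB.trans (Finset.filter_subset _ _)
  have hR : 16 * k ≤ (P \ B).card := by
    rw [Finset.card_sdiff_of_subset hBP]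
    omega
  obtain ⟨Q, hQ, hQc⟩ := Finset.exists_subset_card_eq hR
  obtain ⟨Q₁, hQ₁, hQ₁c⟩ := Finset.exists_subset_card_eq (show 8 * k ≤ Q.card by omega)
  have hQ₂c : (Q \ Q₁).card = 8 * k := by
    rw [Finset.card_sdiff_of_subset hQ₁]
    omega
  have hQP : Q ⊆ P := hQ.trans Finset.sdiff_subset
  have hBQ : Disjoint B Q := Finset.disjoint_left.2 fun x hx hx' =>
    (Finset.mem_sdiff.1 (hQ hx')).2 hx
  -- the primes of `B`
  let i₁ : Fin 10 × Fin (200 * k) ≃ Fin (2000 * k) :=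
    finProdFinEquiv.trans (finCongr (by ring))
  let i₂ : Fin (2000 * k) ≃ B := (B.equivFinOfCardEq hBc).symm
  let p : Fin 10 × Fin (200 * k) → ℕ := fun v => (i₂ (i₁ v) : ℕ)
  have hpB : ∀ v, p v ∈ B := fun v => (i₂ (i₁ v)).2
  have hpi : Function.Injective p := fun v w h =>
    i₁.injective (i₂.injective (Subtype.ext h))
  have hprod : ∏ v, p v = ∏ x ∈ B, x := by
    rw [← Finset.prod_coe_sort B (fun x => x)]
    exact Fintype.prod_equiv (i₁.trans i₂) _ _ fun v => rfl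
  have hcopF : ∀ X Y : Finset ℕ, X ⊆ P → Y ⊆ P → Disjoint X Y →
      (∏ x ∈ X, x).Coprime (∏ y ∈ Y, y) := by
    intro X Y hX hY hXY
    refine Nat.Coprime.prod_left fun x hx => Nat.Coprime.prod_right fun y hy => ?_
    rw [Nat.coprime_primes (hPp x (hX hx)) (hPp y (hY hy))]
    rintro rfl
    exact Finset.disjoint_left.1 hXY hx hy
  have hQ₁P : Q₁ ⊆ P := hQ₁.trans hQP
  have hQ₂P : Q \ Q₁ ⊆ P := Finset.sdiff_subset.trans hQP
  have hQQ : (∏ x ∈ Q₁, x) * (∏ x ∈ Q \ Q₁, x) = ∏ x ∈ Q, x := by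
    rw [mul_comm]
    exact Finset.prod_sdiff hQ₁
  have hdvd : (∏ v, p v) * ((∏ x ∈ Q₁, x) * (∏ x ∈ Q \ Q₁, x)) ∣ n := by
    rw [hprod, hQQ, ← Finset.prod_union hBQ]
    refine (Finset.prod_dvd_prod_of_subset _ n.primeFactors _ ?_).trans (Nat.prod_primeFactors_dvd n)
    exact (Finset.union_subset hBP hQP).trans (Finset.erase_subset _ _)
  refine main_aux hk p (fun v => hPp _ (hBP (hpB v))) (fun v => hP2 _ (hBP (hpB v))) ?_ ?_
    (prod_large hk Q₁ hQ₁c fun x hx => hP3 x (hQ₁P hx))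
    (prod_large hk (Q \ Q₁) hQ₂c fun x hx => hP3 x (hQ₂P hx))
    (hcopF _ _ hQ₁P hQ₂P Finset.disjoint_sdiff) ?_ hdvd
  · intro v w
    have h1 := (Finset.mem_filter.1 (hB (hpB v))).2
    have h2 := (Finset.mem_filter.1 (hB (hpB w))).2
    rw [h1, h2]
  · intro v w hvw
    change (p v).Coprime (p w)
    rw [Nat.coprime_primes (hPp _ (hBP (hpB v))) (hPp _ (hBP (hpB w)))]
    exact fun h => hvw (hpi h)
  · rw [hprod, hQQ]
    exact hcopF B Q hBP hQP hBQ

end Pool.Agent.CircWL
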