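import Mathlib
import Pool.Agent.CircWL.Final

/-!
# Small numbers with many prime factors
-/

namespace Pool.Agent.CircWL

open Nat.Prime in
lemma exists_number {k : ℕ} (hk : 1 ≤ k) :
    ∃ n : ℕ, n ≠ 0 ∧ n ≤ (k + 1) ^ (200000 * k) ∧ 4001 * k ≤ n.primeFactors.card := by
  set L := Nat.log 2 (k + 1) with hL
  have hL1 : 1 ≤ L := by
    rw [hL]
    exact Nat.log_pos (by omega) (by omega)
  have hk2 : k + 1 < 2 ^ (L + 1) := Nat.lt_pow_succ_log_self (by omega) _
  have hk3 : 2 ^ L ≤ k + 1 := Nat.pow_log_le_self 2 (by omega)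
  have hLL : L < 2 ^ L := Nat.lt_two_pow_self
  set N := 100000 * k * L with hN
  refine ⟨primorial N, primorial_ne_zero N, ?_, ?_⟩
  · calc primorial N ≤ 4 ^ N := primorial_le_four_pow N
      _ = (2 ^ L) ^ (200000 * k) := by
        rw [hN, ← pow_mul, show (4 : ℕ) = 2 ^ 2 by norm_num, ← pow_mul]
        congr 1
        ring
      _ ≤ (k + 1) ^ (200000 * k) := Nat.pow_le_pow_left hk3 _
  · rw [primeFactors_primorial]
    have h1 := Chebyshev.pi_ge N
    have hcard : (Nat.primesLE N).card = Nat.primeCounting N := by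
      simp
    rw [hcard]
    have hN1 : N + 1 ≤ 2 ^ (21 * L) := by
      have e1 : N + 1 ≤ 2 * N := by
        have : 1 ≤ N := by
          rw [hN]
          exact Nat.mul_pos (by omega) hL1
        omega
      calc N + 1 ≤ 2 * N := e1
        _ ≤ 2 * (2 ^ 17 * 2 ^ (L + 1) * 2 ^ L) := by
          rw [hN]
          have e2 : 100000 ≤ 2 ^ 17 := by norm_num
          have e3 : k ≤ 2 ^ (L + 1) := by omega
          exact Nat.mul_le_mul_left _ (Nat.mul_le_mul (Nat.mul_le_mul e2 e3) hLL.le)
        _ = 2 ^ (19 + 2 * L) := by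
          rw [← pow_add, ← pow_add, ← pow_succ']
          congr 1
          omega
        _ ≤ 2 ^ (21 * L) := Nat.pow_le_pow_right (by omega) (by omega)
    have hlog2 : 0 < Real.log 2 := Real.log_pos (by norm_num)
    have hN2 : Real.log ((N : ℝ) + 1) ≤ 21 * L * Real.log 2 := by
      have e1 : (N : ℝ) + 1 ≤ 2 ^ (21 * L) := by exact_mod_cast hN1
      refine (Real.log_le_log (by positivity) e1).trans_eq ?_
      rw [Real.log_pow]
      push_cast
      ring
    have hNbig : 2 ≤ N := by
      rw [hN]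
      calc 2 ≤ 100000 * 1 * 1 := by norm_num
        _ ≤ 100000 * k * L := Nat.mul_le_mul (Nat.mul_le_mul_left _ hk) hL1
    have hN0 : (1 : ℝ) < N := by exact_mod_cast hNbig
    have hlogN : 0 < Real.log N := Real.log_pos hN0
    have hlogN2 : Real.log N ≤ 21 * L * Real.log 2 :=
      (Real.log_le_log (by linarith) (by linarith)).trans hN2
    have hNr : (N : ℝ) = 100000 * k * L := by rw [hN]; push_cast; ring
    have hkr : (1 : ℝ) ≤ k := by exact_mod_cast hk
    have hLr : (1 : ℝ) ≤ L := by exact_mod_cast hL1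
    have h2 : (4001 * k : ℝ) ≤ Nat.primeCounting N := by
      refine le_trans ?_ h1
      rw [le_div_iff₀ hlogN]
      calc 4001 * k * Real.log N ≤ 4001 * k * (21 * L * Real.log 2) := by gcongr
        _ ≤ N * Real.log 2 - 21 * L * Real.log 2 := by
          rw [hNr]
          have e1 : 0 ≤ L * Real.log 2 := by positivity
          nlinarith [mul_le_mul_of_nonneg_left hkr e1]
        _ ≤ N * Real.log 2 - Real.log (N + 1) := by linarith
    exact_mod_cast h2

end Pool.Agent.CircWL
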